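import Pool.Agent.D0H26.RR.Main2

/-!
# Only the simplices of dimension at most `m` matter (helper26)
-/

set_option autoImplicit false

open Set Filter Topology

namespace Pool.Agent.D0H26.RR

open Pool.Agent.W689.Ch Pool.Agent.TH845.Mk Pool.Agent.Y150.Ch
open Pool.Agent.W689.Mk (lin hol_add hol_sub hol_inv_apply hol_apply_inv lin_inv_apply lin_mul
  lin_smul lin_neg hol_cont)
open Pool.Agent.R772.TT (tr exists_dual)
open Pool.Agent.TH289.N (cl cl_apply)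
open Pool.Agent.D0H13.CA (Rl nset_full)

/-- Caratheodory -/
theorem good_of_faces {A M : Type} [AddCommGroup M] [Module ℝ M] [FiniteDimensional ℝ M]
    (v : A → M) (s : Finset A)
    (h : ∀ t ⊆ s, t.Nonempty → t.card ≤ Module.finrank ℝ M + 1 →
      ∃ g : M →ₗ[ℝ] ℝ, ∀ a ∈ t, 0 < g (v a)) : ∃ g : M →ₗ[ℝ] ℝ, ∀ a ∈ s, 0 < g (v a) := by
  classical
  let W := EuclideanSpace ℝ (Fin (Module.finrank ℝ M))
  have hW : Module.finrank ℝ M = Module.finrank ℝ W := by simp [W]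
  let e : M ≃ₗ[ℝ] W := LinearEquiv.ofFinrankEq M W hW
  let S : Finset W := s.image (fun a => e (v a))
  by_cases h0 : (0 : W) ∈ convexHull ℝ (S : Set W)
  · exfalso
    rw [convexHull_eq_union] at h0
    simp only [Set.mem_iUnion] at h0
    obtain ⟨t', ht', hai, h1⟩ := h0
    have hcard : t'.card ≤ Module.finrank ℝ M + 1 := by
      have h2 := hai.card_le_finrank_succ
      rw [Fintype.card_coe] at h2
      refine h2.trans ?_
      have h3 : Module.finrank ℝ (vectorSpan ℝ (Set.range ((↑) : t' → W))) ≤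
          Module.finrank ℝ W := Submodule.finrank_le _
      omega
    have hne : t'.Nonempty := by
      by_contra hcon
      rw [Finset.not_nonempty_iff_eq_empty] at hcon
      rw [hcon, Finset.coe_empty, convexHull_empty] at h1
      exact h1
    have hch : ∀ w ∈ t', ∃ a ∈ s, e (v a) = w := by
      intro w hw
      have h2 : w ∈ S := ht' hw
      obtain ⟨a, ha, h3⟩ := Finset.mem_image.1 h2
      exact ⟨a, ha, h3⟩
    have hA : Nonempty A := by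
      obtain ⟨w, hw⟩ := hne
      obtain ⟨a, _, _⟩ := hch w hw
      exact ⟨a⟩
    choose! pick hp1 hp2 using hch
    obtain ⟨g, hg⟩ := h (t'.image pick) (by
      intro a ha
      obtain ⟨w, hw, rfl⟩ := Finset.mem_image.1 ha
      exact hp1 w hw) (hne.image _) (Finset.card_image_le.trans hcard)
    have h2 : convexHull ℝ (t' : Set W) ⊆ {w | 0 < (g ∘ₗ (e.symm : W →ₗ[ℝ] M)) w} := by
      refine convexHull_min ?_ (convex_halfSpace_gt (g ∘ₗ (e.symm : W →ₗ[ℝ] M)).isLinear 0)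
      intro w hw
      have h3 := hg (pick w) (Finset.mem_image_of_mem _ hw)
      show 0 < g (e.symm w)
      have h4 : e.symm w = v (pick w) := by
        rw [LinearEquiv.symm_apply_eq]
        exact (hp2 w hw).symm
      rw [h4]
      exact h3
    have h3 : (0 : ℝ) < (g ∘ₗ (e.symm : W →ₗ[ℝ] M)) 0 := h2 h1
    rw [map_zero] at h3
    exact lt_irrefl _ h3
  · have hcl : IsClosed (convexHull ℝ (S : Set W)) :=
      (S.finite_toSet.isCompact_convexHull (𝕜 := ℝ)).isClosed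
    obtain ⟨f, u, hf1, hf2⟩ := geometric_hahn_banach_point_closed (convex_convexHull ℝ _) hcl h0
    refine ⟨(f : W →ₗ[ℝ] ℝ) ∘ₗ (e : M →ₗ[ℝ] W), fun a ha => ?_⟩
    have h1 : e (v a) ∈ convexHull ℝ (S : Set W) :=
      subset_convexHull ℝ _ (Finset.mem_image_of_mem _ ha)
    have h2 := hf2 _ h1
    rw [map_zero] at hf1
    show 0 < f (e (v a))
    linarith

section
variable {X Γ E : Type} [TopologicalSpace X] [T2Space X] [Group Γ] [MulAction Γ X]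
  [NormedAddCommGroup E] [NormedSpace ℝ E] [FiniteDimensional ℝ E]
  {dev : X → E} {hol : Γ →* (E ≃ᵃ[ℝ] E)}

/-- invariant covers; small subsets of the index sets lie in translates of members of `ℳ` -/
structure Cov3 (X Γ : Type) {A : Type} [TopologicalSpace X] [Group Γ] [MulAction Γ X]
    [MulAction Γ A] (U : A → Set X) (ℳ : Finset (Finset A)) (m : ℕ) : Prop where
  op : ∀ a, IsOpen (U a)
  inv : ∀ (γ : Γ) a x, x ∈ U a → γ • x ∈ U (γ • a)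
  cov : ∀ x, ∃ s : Finset A, s.Nonempty ∧ (∀ a, x ∈ U a → a ∈ s) ∧ (∀ a ∈ s, x ∈ U a) ∧
    ∀ t ⊆ s, t.Nonempty → t.card ≤ m + 1 → ∃ t' ∈ ℳ, ∃ γ : Γ, ∀ a ∈ t, γ • a ∈ t'

/-- rays -/
theorem sub_cover3 (D : AffMfd X Γ E dev hol)
    (hno : ¬ ∃ Z : X → E, Continuous Z ∧ (∀ (γ : Γ) x, Z (γ • x) = lin hol γ (Z x)) ∧
      ∀ x, Z x ≠ 0) {A : Type} [MulAction Γ A] {U : A → Set X}
    (op : ∀ a, IsOpen (U a)) (inv : ∀ (γ : Γ) a x, x ∈ U a → γ • x ∈ U (γ • a))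
    (N : Submodule ℝ E) (hN : ∀ (γ : Γ), ∀ v ∈ N, lin hol γ v ∈ N)
    (r : A → E) (hr : ∀ (γ : Γ) a, ∃ c : ℝ, 0 < c ∧ lin hol γ (r a) - c • r (γ • a) ∈ N)
    (hg : ∀ x, (∃ a, x ∈ U a) ∧ ∃ g : E →ₗ[ℝ] ℝ, (∀ v ∈ N, g v = 0) ∧
      ∀ a, x ∈ U a → 0 < g (r a)) : False := by
  obtain ⟨x, h0⟩ := nset_full D hno
    (Φ := fun x => {Z | ∃ a, x ∈ U a ∧ ∃ v : E, (∃ c : ℝ, 0 < c ∧ v - c • r a ∈ N) ∧
      Z = fun _ => v}) (by
      intro x
      obtain ⟨⟨a, ha⟩, _⟩ := hg x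
      exact ⟨_, a, ha, r a, ⟨1, one_pos, by rw [one_smul, sub_self]; exact N.zero_mem⟩, rfl⟩) (by
      rintro x Z ⟨a, _, v, _, rfl⟩
      exact continuous_const) (by
      rintro γ x Z ⟨a, ha, v, ⟨c, hc, hv⟩, rfl⟩
      refine ⟨γ⁻¹ • a, ?_, lin hol γ⁻¹ v, ?_, rfl⟩
      · have h1 := inv γ⁻¹ a _ ha
        rwa [inv_smul_smul] at h1
      · obtain ⟨c', hc', h1⟩ := hr γ⁻¹ a
        refine ⟨c * c', mul_pos hc hc', ?_⟩
        have h2 := hN γ⁻¹ _ hv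
        have h3 : lin hol γ⁻¹ (v - c • r a) = lin hol γ⁻¹ v - c • lin hol γ⁻¹ (r a) := by
          show (hol γ⁻¹).linear (v - c • r a) = _
          rw [map_sub, map_smul]
        rw [h3] at h2
        have h4 := N.add_mem h2 (N.smul_mem c h1)
        have h5 : lin hol γ⁻¹ v - c • lin hol γ⁻¹ (r a) +
            c • (lin hol γ⁻¹ (r a) - c' • r (γ⁻¹ • a)) =
            lin hol γ⁻¹ v - (c * c') • r (γ⁻¹ • a) := by
          rw [smul_sub, smul_smul]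
          abel
        rwa [h5] at h4) (by
      rintro x Z ⟨a, ha, v, hv, rfl⟩
      filter_upwards [(op a).mem_nhds ha] with y hy
      exact ⟨a, hy, v, hv, rfl⟩)
  obtain ⟨_, g, hg1, hg2⟩ := hg x
  have h1 : convexHull ℝ {w : E | ∃ Z ∈ {Z : X → E | ∃ a, x ∈ U a ∧ ∃ v : E,
      (∃ c : ℝ, 0 < c ∧ v - c • r a ∈ N) ∧ Z = fun _ => v}, w = Z x} ⊆
      {w : E | 0 < g w} := by
    refine convexHull_min ?_ (convex_halfSpace_gt g.isLinear 0)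
    rintro w ⟨Z, ⟨a, ha, v, ⟨c, hc, hv⟩, hZ⟩, hw⟩
    have hwv : w = v := by rw [hw, hZ]
    have h3 := hg1 _ hv
    rw [map_sub, map_smul, smul_eq_mul, sub_eq_zero] at h3
    show 0 < g w
    rw [hwv, h3]
    exact mul_pos hc (hg2 a ha)
  have h2 : (0 : ℝ) < g 0 := h1 h0
  rw [map_zero] at h2
  exact lt_irrefl _ h2

/-- half-spaces -/
theorem quot_cover3 (D : AffMfd X Γ E dev hol)
    (hno : ¬ ∃ Z : X → E, Continuous Z ∧ (∀ (γ : Γ) x, Z (γ • x) = lin hol γ (Z x)) ∧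
      ∀ x, Z x ≠ 0) {A : Type} [MulAction Γ A] {U : A → Set X}
    (op : ∀ a, IsOpen (U a)) (inv : ∀ (γ : Γ) a x, x ∈ U a → γ • x ∈ U (γ • a))
    (N : Submodule ℝ E) (hN : ∀ (γ : Γ), ∀ v ∈ N, lin hol γ v ∈ N)
    (l : A → E →ₗ[ℝ] ℝ)
    (hl : ∀ (γ : Γ) a, ∃ c : ℝ, 0 < c ∧ ∀ v ∈ N, l a v = c * l (γ • a) (lin hol γ v))
    (hg : ∀ x, (∃ a, x ∈ U a) ∧ ∃ v ∈ N, ∀ a, x ∈ U a → 0 < l a v) : False := by
  obtain ⟨B, hB1, hB2, hB3⟩ := exists_dual D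
  obtain ⟨x, h0⟩ := nset_full D hno
    (Φ := fun x => {Z | ∃ a, x ∈ U a ∧ ∃ m : E →L[ℝ] ℝ,
      (∃ c : ℝ, 0 < c ∧ ∀ v ∈ N, m v = c * l a v) ∧ Z = fun y => B y m}) (by
      intro x
      obtain ⟨⟨a, ha⟩, _⟩ := hg x
      exact ⟨_, a, ha, LinearMap.toContinuousLinearMap (l a),
        ⟨1, one_pos, fun v _ => by rw [one_mul]; rfl⟩, rfl⟩) (by
      rintro x Z ⟨a, _, m, _, rfl⟩
      exact hB1 m) (by
      rintro γ x Z ⟨a, ha, m, ⟨c, hc, hm⟩, rfl⟩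
      refine ⟨γ⁻¹ • a, ?_, m.comp (cl hol γ), ?_, ?_⟩
      · have h1 := inv γ⁻¹ a _ ha
        rwa [inv_smul_smul] at h1
      · obtain ⟨c', hc', h1⟩ := hl γ (γ⁻¹ • a)
        refine ⟨c / c', div_pos hc hc', fun v hv => ?_⟩
        have h2 := h1 v hv
        rw [smul_inv_smul] at h2
        show m (cl hol γ v) = c / c' * l (γ⁻¹ • a) v
        rw [h2]
        have h3 : m (cl hol γ v) = c * l a (lin hol γ v) := hm _ (hN γ v hv)
        rw [h3]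
        field_simp
      · funext y
        show lin hol γ⁻¹ (B (γ • y) m) = B y (m.comp (cl hol γ))
        rw [hB3, lin_inv_apply]) (by
      rintro x Z ⟨a, ha, m, hm, rfl⟩
      filter_upwards [(op a).mem_nhds ha] with y hy
      exact ⟨a, hy, m, hm, rfl⟩)
  obtain ⟨_, v, hvN, hv⟩ := hg x
  have h1 : convexHull ℝ {w : E | ∃ Z ∈ {Z : X → E | ∃ a, x ∈ U a ∧ ∃ m : E →L[ℝ] ℝ,
      (∃ c : ℝ, 0 < c ∧ ∀ v ∈ N, m v = c * l a v) ∧ Z = fun y => B y m}, w = Z x} ⊆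
      {w : E | ∃ m : E →L[ℝ] ℝ, 0 < m v ∧ w = B x m} := by
    refine convexHull_min ?_ ?_
    · rintro w ⟨Z, ⟨a, ha, m, ⟨c, hc, hm⟩, hZ⟩, hw'⟩
      refine ⟨m, ?_, by rw [hw', hZ]⟩
      rw [hm _ hvN]
      exact mul_pos hc (hv a ha)
    · rintro _ ⟨m, hm, rfl⟩ _ ⟨m', hm', rfl⟩ a b ha hb hab
      refine ⟨a • m + b • m', ?_, ?_⟩
      · show 0 < a * m v + b * m' v
        rcases ha.eq_or_lt with h | h
        · rw [← h] at hab ⊢
          rw [zero_add] at hab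
          rw [hab]
          linarith
        · have := mul_pos h hm
          have := mul_nonneg hb hm'.le
          linarith
      · rw [map_add, map_smul, map_smul]
  obtain ⟨m, hm, h2⟩ := h1 h0
  by_cases hm0 : m = 0
  · rw [hm0] at hm
    exact lt_irrefl _ hm
  · have h3 := hB2 x m hm0
    rw [← h2, map_zero] at h3
    exact lt_irrefl _ h3

/-- faces with at most `m + 1` vertices suffice -/
theorem good_at {A M : Type} [MulAction Γ A] [AddCommGroup M] [Module ℝ M]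
    [FiniteDimensional ℝ M] (ρ : Γ → M →ₗ[ℝ] M) {ℳ : Finset (Finset A)} (v : A → M)
    (hv1 : ∀ (γ : Γ) a, ∃ c : ℝ, 0 < c ∧ ρ γ (v a) = c • v (γ • a))
    (hv2 : ∀ t ∈ ℳ, ∃ f : M →ₗ[ℝ] ℝ, ∀ a ∈ t, 0 < f (v a)) (s : Finset A)
    (h : ∀ t ⊆ s, t.Nonempty → t.card ≤ Module.finrank ℝ M + 1 →
      ∃ t' ∈ ℳ, ∃ γ : Γ, ∀ a ∈ t, γ • a ∈ t') :
    ∃ g : M →ₗ[ℝ] ℝ, ∀ a ∈ s, 0 < g (v a) := by
  refine good_of_faces v s fun t ht hne hc => ?_
  obtain ⟨t', ht', γ, hγ⟩ := h t ht hne hc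
  obtain ⟨f, hf⟩ := hv2 t' ht'
  refine ⟨f ∘ₗ ρ γ, fun a ha => ?_⟩
  obtain ⟨c, hc, h1⟩ := hv1 γ a
  show 0 < f (ρ γ (v a))
  rw [h1, map_smul, smul_eq_mul]
  exact mul_pos hc (hf _ (hγ a ha))

/-- **Quotients.** -/
theorem sub_random3 (D : AffMfd X Γ E dev hol)
    (hno : ¬ ∃ Z : X → E, Continuous Z ∧ (∀ (γ : Γ) x, Z (γ • x) = lin hol γ (Z x)) ∧
      ∀ x, Z x ≠ 0) {A : Type} [MulAction Γ A] {U : A → Set X} {ℳ : Finset (Finset A)}
    (N : Submodule ℝ E) (hU : Cov3 X Γ U ℳ (Module.finrank ℝ (E ⧸ N)))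
    (hne : ∀ t ∈ ℳ, t.Nonempty)
    (hN : ∀ (γ : Γ), ∀ v ∈ N, lin hol γ v ∈ N)
    (hreg : ∀ t ∈ ℳ, ∀ a ∈ t, ∀ b ∈ t, ∀ γ : Γ, γ • a = b →
      ∃ c : ℝ, 0 < c ∧ ∀ v, lin hol γ v - c • v ∈ N)
    (hs : Small Γ ℳ (Module.finrank ℝ (E ⧸ N))) : False := by
  obtain ⟨ρ, ρ1, ρmul, ρmk, ρS⟩ := rho_quot hol N hN
  obtain ⟨v, hv1, hv2⟩ := exists_signed2 (M := E ⧸ N) ρ ρ1 ρmul ℳ hne
    (fun t ht a ha b hb γ hγ => (ρS γ).2 (hreg t ht a ha b hb γ hγ)) hs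
  choose r hr using fun a => N.mkQ_surjective (v a)
  refine sub_cover3 D hno hU.op hU.inv N hN r ?_ ?_
  · intro γ a
    obtain ⟨c, hc, h⟩ := hv1 γ a
    refine ⟨c, hc, ?_⟩
    have h1 : N.mkQ (lin hol γ (r a)) = c • N.mkQ (r (γ • a)) := by
      rw [hr (γ • a), ← h, ← hr a, ρmk]
    rw [← Submodule.Quotient.mk_eq_zero, ← Submodule.mkQ_apply, map_sub, map_smul, h1, sub_self]
  · intro x
    obtain ⟨s, ⟨a₀, ha₀⟩, hs1, hs2, hs3⟩ := hU.cov x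
    refine ⟨⟨a₀, hs2 a₀ ha₀⟩, ?_⟩
    obtain ⟨f, hf⟩ := good_at ρ v hv1 hv2 s hs3
    refine ⟨f ∘ₗ N.mkQ, ?_, ?_⟩
    · intro v hv
      show f (N.mkQ v) = 0
      rw [(Submodule.Quotient.mk_eq_zero N).2 hv |> fun h => (show N.mkQ v = 0 from h), map_zero]
    · intro a ha
      show 0 < f (N.mkQ (r a))
      rw [hr a]
      exact hf a (hs1 a ha)

/-- **Subspaces.** -/
theorem quot_random3 (D : AffMfd X Γ E dev hol)
    (hno : ¬ ∃ Z : X → E, Continuous Z ∧ (∀ (γ : Γ) x, Z (γ • x) = lin hol γ (Z x)) ∧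
      ∀ x, Z x ≠ 0) {A : Type} [MulAction Γ A] {U : A → Set X} {ℳ : Finset (Finset A)}
    (N : Submodule ℝ E) (hU : Cov3 X Γ U ℳ (Module.finrank ℝ N)) (hne : ∀ t ∈ ℳ, t.Nonempty)
    (hN : ∀ (γ : Γ), ∀ v ∈ N, lin hol γ v ∈ N)
    (hreg : ∀ t ∈ ℳ, ∀ a ∈ t, ∀ b ∈ t, ∀ γ : Γ, γ • a = b →
      ∃ c : ℝ, 0 < c ∧ ∀ v ∈ N, lin hol γ v = c • v)
    (hs : Small Γ ℳ (Module.finrank ℝ N)) : False := by
  let r : Γ → N →ₗ[ℝ] N := fun γ => ((hol γ).linear : E →ₗ[ℝ] E).restrict (hN γ)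
  have hr : ∀ γ (v : N), ((r γ v : N) : E) = lin hol γ v.1 := fun γ v => rfl
  have hrr : ∀ γ (v : N), r γ (r γ⁻¹ v) = v := by
    intro γ v
    apply Subtype.ext
    rw [hr, hr]
    have h2 := lin_inv_apply (hol := hol) γ⁻¹ v.1
    rwa [inv_inv] at h2
  have hrr' : ∀ γ (v : N), r γ⁻¹ (r γ v) = v := by
    intro γ v
    apply Subtype.ext
    rw [hr, hr]
    exact lin_inv_apply (hol := hol) γ v.1
  have hdim : Module.finrank ℝ (Module.Dual ℝ N) = Module.finrank ℝ N := Subspace.dual_finrank_eq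
  obtain ⟨v, hv1, hv2⟩ := exists_signed2 (M := Module.Dual ℝ N)
    (fun γ : Γ => (r γ⁻¹).dualMap)
    (by
      intro m
      ext v
      show m (r 1⁻¹ v) = m v
      congr 1
      apply Subtype.ext
      rw [hr, inv_one]
      show (hol 1).linear v.1 = v.1
      rw [map_one]; rfl)
    (by
      intro γ δ m
      ext v
      show m (r (γ * δ)⁻¹ v) = m (r δ⁻¹ (r γ⁻¹ v))
      congr 1
      apply Subtype.ext
      rw [hr, hr, hr, mul_inv_rev, lin_mul])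
    ℳ hne
    (by
      intro t ht a ha b hb γ hγ
      obtain ⟨c, hc, h⟩ := hreg t ht a ha b hb γ hγ
      refine ⟨c⁻¹, inv_pos.2 hc, ?_⟩
      intro m
      ext v
      show m (r γ⁻¹ v) = c⁻¹ * m v
      have h2 : r γ (r γ⁻¹ v) = c • r γ⁻¹ v := Subtype.ext (h _ (r γ⁻¹ v).2)
      rw [hrr] at h2
      have h3 : m v = c * m (r γ⁻¹ v) := by
        conv_lhs => rw [h2]
        rw [map_smul, smul_eq_mul]
      rw [h3, inv_mul_cancel_left₀ hc.ne'])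
    (by rw [hdim]; exact hs)
  choose l hl using fun a => LinearMap.exists_extend (v a)
  have hlv : ∀ a (w : N), l a w.1 = v a w := fun a w => by
    rw [← hl a]
    rfl
  refine quot_cover3 D hno hU.op hU.inv N hN l ?_ ?_
  · intro γ a
    obtain ⟨c, hc, h⟩ := hv1 γ a
    refine ⟨c, hc, ?_⟩
    intro w hw
    have h1 : l a w = v a ⟨w, hw⟩ := hlv a ⟨w, hw⟩
    have h2 : l (γ • a) (lin hol γ w) = v (γ • a) (r γ ⟨w, hw⟩) := hlv (γ • a) (r γ ⟨w, hw⟩)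
    rw [h1, h2]
    have h3 := LinearMap.congr_fun h (r γ ⟨w, hw⟩)
    have h4 : v a (r γ⁻¹ (r γ ⟨w, hw⟩)) = c * v (γ • a) (r γ ⟨w, hw⟩) := h3
    rwa [hrr'] at h4
  · intro x
    obtain ⟨s, ⟨a₀, ha₀⟩, hs1, hs2, hs3⟩ := hU.cov x
    refine ⟨⟨a₀, hs2 a₀ ha₀⟩, ?_⟩
    obtain ⟨g, hg⟩ := good_at (fun γ : Γ => (r γ⁻¹).dualMap) v hv1 hv2 s
      (fun t h1 h2 h3 => hs3 t h1 h2 (by rwa [hdim] at h3))
    obtain ⟨w, hw⟩ := (Module.evalEquiv ℝ N).surjective g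
    refine ⟨w.1, w.2, fun a ha => ?_⟩
    rw [hlv]
    have h1 := hg a (hs1 a ha)
    rw [← hw] at h1
    exact h1

end

end Pool.Agent.D0H26.RR
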