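import Pool.Agent.D0H26.RR.Gen

/-!
# Explicit forms of the bounds (helper26)
-/

set_option autoImplicit false

namespace Pool.Agent.D0H26.RR

open Finset
open Pool.Agent.Helper93K9.Wendel (covN covN_succ_succ)

theorem covN_mono (n m : ℕ) : covN n m ≤ covN n (m + 1) := by
  unfold covN
  split_ifs
  · exact le_rfl
  · exact Nat.mul_le_mul_left 2 (Finset.sum_le_sum_of_subset (Finset.range_subset_range.2
      (Nat.le_succ m)))

theorem covN_double (n m : ℕ) (hn : n ≠ 0) : covN (n + 1) m ≤ 2 * covN n m := by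
  rcases m with _ | m
  · simp [covN]
  · rw [covN_succ_succ _ _ hn]
    have := covN_mono n m
    omega

theorem pr_nonneg (m n : ℕ) : 0 ≤ pr m n := by
  unfold pr
  positivity

theorem pr_succ (m n : ℕ) : pr m n ≤ pr m (n + 1) := by
  rcases Nat.eq_zero_or_pos n with rfl | hn
  · have h : pr m 0 = 0 := by simp [pr]
    rw [h]
    exact pr_nonneg m 1
  · rw [pr_eq m n (by omega), pr_eq m (n + 1) (by omega)]
    have h1 : (covN (n + 1) m : ℝ) ≤ 2 * covN n m := by
      exact_mod_cast covN_double n m (by omega)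
    have h2 : (covN (n + 1) m : ℝ) / 2 ^ (n + 1) ≤ (covN n m : ℝ) / 2 ^ n := by
      rw [div_le_div_iff₀ (by positivity) (by positivity), pow_succ]
      nlinarith [pow_pos (show (0 : ℝ) < 2 by norm_num) n]
    linarith

theorem pr_mono (m : ℕ) {n n' : ℕ} (h : n ≤ n') : pr m n ≤ pr m n' :=
  monotone_nat_of_le_succ (pr_succ m) h

/-- Chernoff -/
theorem pr_chernoff (m D : ℕ) (x : ℝ) (hx : 1 ≤ x) :
    pr m (D + 1) ≤ ((1 + x) / 2) ^ D / x ^ m := by
  have hx0 : 0 < x := by linarith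
  have h1 : ∑ k ∈ Ico m (D + 1), (D.choose k : ℝ) ≤ (1 + x) ^ D / x ^ m := by
    rw [le_div_iff₀ (by positivity), Finset.sum_mul]
    have h2 : (1 + x) ^ D = ∑ k ∈ range (D + 1), x ^ k * (D.choose k : ℝ) := by
      rw [add_comm, add_pow]
      refine Finset.sum_congr rfl fun k _ => ?_
      rw [one_pow, mul_one]
    rw [h2]
    refine (Finset.sum_le_sum (fun k hk => ?_)).trans
      (Finset.sum_le_sum_of_subset_of_nonneg (s := Ico m (D + 1)) (t := range (D + 1)) ?_ ?_)
    · rw [mul_comm]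
      exact mul_le_mul_of_nonneg_right (pow_le_pow_right₀ hx (Finset.mem_Ico.1 hk).1)
        (Nat.cast_nonneg _)
    · intro k hk
      exact Finset.mem_range.2 (Finset.mem_Ico.1 hk).2
    · intro k _ _
      positivity
  unfold pr
  rw [Nat.add_sub_cancel, div_pow, div_right_comm]
  exact div_le_div_of_nonneg_right h1 (by positivity)

/-- explicit bound -/
theorem pr_exp (m D : ℕ) (hm : 0 < m) (hD : D ≤ 2 * m) :
    pr m (D + 1) ≤ Real.exp (-((2 * m - D : ℝ) ^ 2 / (16 * m))) := by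
  have hm' : (0 : ℝ) < m := by exact_mod_cast hm
  have hD' : (D : ℝ) ≤ 2 * m := by exact_mod_cast hD
  set δ : ℝ := (2 * m - D) / (4 * m) with hδ
  have hδ0 : 0 ≤ δ := div_nonneg (by linarith) (by positivity)
  have h1 := pr_chernoff m D (1 + δ) (by linarith)
  have h2 : ((1 + (1 + δ)) / 2) ^ D ≤ Real.exp (D * (δ / 2)) := by
    rw [Real.exp_nat_mul]
    refine pow_le_pow_left₀ (by linarith) ?_ D
    have := Real.add_one_le_exp (δ / 2)
    linarith
  have h3 : Real.exp (m * (δ - δ ^ 2)) ≤ (1 + δ) ^ m := by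
    rw [Real.exp_nat_mul]
    refine pow_le_pow_left₀ (Real.exp_pos _).le ?_ m
    rw [← Real.le_log_iff_exp_le (by linarith)]
    refine le_trans ?_ (Real.one_sub_inv_le_log_of_pos (by linarith))
    have h4 : 1 - (1 + δ)⁻¹ = δ / (1 + δ) := by
      field_simp
      ring
    rw [h4, le_div_iff₀ (by linarith)]
    nlinarith [pow_nonneg hδ0 3]
  refine h1.trans ((div_le_div₀ (Real.exp_pos _).le h2 (Real.exp_pos _) h3).trans (le_of_eq ?_))
  rw [← Real.exp_sub]
  congr 1
  rw [hδ]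
  field_simp
  ring

/-- the local lemma with constants -/
theorem e_bound {ι : Type} (ℳ : Finset ι) (nb : ι → Finset ι) (p : ι → ℝ)
    (h : ∀ w : ι → ℝ, (∀ t ∈ ℳ, 0 ≤ w t ∧ w t < 1) →
      ∃ t ∈ ℳ, w t * ∏ t' ∈ nb t, (1 - w t') < p t)
    (d : ℕ) (hd : ∀ t ∈ ℳ, (nb t).card ≤ d) :
    ∃ t ∈ ℳ, 1 < Real.exp 1 * (d + 1) * p t := by
  rcases Nat.eq_zero_or_pos d with rfl | hd0
  · obtain ⟨t, ht, h1⟩ := h (fun _ => 1 / 2) (fun _ _ => by norm_num)
    refine ⟨t, ht, ?_⟩
    have h2 : nb t = ∅ := Finset.card_eq_zero.1 (Nat.le_zero.1 (hd t ht))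
    rw [h2, Finset.prod_empty, mul_one] at h1
    have h3 : (2 : ℝ) ≤ Real.exp 1 := by
      have := Real.add_one_le_exp (1 : ℝ)
      linarith
    push_cast
    nlinarith
  · have hd' : (0 : ℝ) < d := by exact_mod_cast hd0
    obtain ⟨t, ht, h1⟩ := h (fun _ => 1 / ((d : ℝ) + 1)) (fun _ _ => by
      refine ⟨by positivity, ?_⟩
      rw [div_lt_one (by positivity)]
      linarith)
    refine ⟨t, ht, ?_⟩
    rw [Finset.prod_const] at h1
    have h2 : 1 - 1 / ((d : ℝ) + 1) = d / (d + 1) := by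
      field_simp
      ring
    have h3 : (1 - 1 / ((d : ℝ) + 1)) ^ d ≤ (1 - 1 / ((d : ℝ) + 1)) ^ (nb t).card := by
      refine pow_le_pow_of_le_one ?_ ?_ (hd t ht)
      · rw [h2]; positivity
      · have : 0 ≤ 1 / ((d : ℝ) + 1) := by positivity
        linarith
    have h4 : (Real.exp 1)⁻¹ ≤ (1 - 1 / ((d : ℝ) + 1)) ^ d := by
      have h5 : (1 + 1 / (d : ℝ)) ^ d ≤ Real.exp 1 := by
        have h6 : 1 + 1 / (d : ℝ) ≤ Real.exp (1 / d) := by
          have := Real.add_one_le_exp (1 / (d : ℝ))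
          linarith
        calc (1 + 1 / (d : ℝ)) ^ d ≤ (Real.exp (1 / d)) ^ d :=
              pow_le_pow_left₀ (by positivity) h6 d
          _ = Real.exp 1 := by
              rw [← Real.exp_nat_mul]
              congr 1
              field_simp
      have h7 : 1 - 1 / ((d : ℝ) + 1) = (1 + 1 / (d : ℝ))⁻¹ := by
        field_simp
        ring
      rw [h7, inv_pow]
      exact inv_anti₀ (by positivity) h5
    have h8 : 1 / ((d : ℝ) + 1) * (Real.exp 1)⁻¹ < p t :=
      lt_of_le_of_lt (mul_le_mul_of_nonneg_left (h4.trans h3) (by positivity)) h1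
    have h9 : (0 : ℝ) < Real.exp 1 * (d + 1) := by positivity
    have h10 : 1 / ((d : ℝ) + 1) * (Real.exp 1)⁻¹ * (Real.exp 1 * (d + 1)) = 1 := by
      field_simp
    have h11 := mul_lt_mul_of_pos_right h8 h9
    rw [h10] at h11
    linarith

section
variable {Γ A : Type} [Group Γ] [MulAction Γ A]

open Classical in
/-- **Degrees.** -/
theorem degree (adj : A → A → Prop) (hsym : ∀ a b, adj a b → adj b a)
    (hinv : ∀ (γ : Γ) a b, adj a b → adj (γ • a) (γ • b))
    (hfin : Finite (MulAction.orbitRel.Quotient Γ A)) (D : ℕ)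
    (hD : ∀ a, {b | b ≠ a ∧ adj a b}.Finite ∧ {b | b ≠ a ∧ adj a b}.ncard ≤ D)
    (hreg : ∀ a b c, (b = a ∨ adj a b) → (c = a ∨ adj a c) → ∀ γ : Γ, γ • b = c → b = c) :
    ∃ ℳ : Finset (Finset A), (∀ t ∈ ℳ, t.Nonempty) ∧ (∀ t ∈ ℳ, t.card ≤ D + 1) ∧
      (∀ t ∈ ℳ, ∀ a ∈ t, ∀ b ∈ t, ∀ γ : Γ, γ • a = b → a = b) ∧
      (∀ a, ∃ t ∈ ℳ, ∃ γ : Γ, γ • a ∈ t ∧ ∀ b, adj a b → γ • b ∈ t) ∧
      ∀ t ∈ ℳ, (ℳ.filter (fun t' => t' ≠ t ∧ Meets Γ t t')).card ≤ (D + 1) ^ 2 - 1 := by
  let rep : A → A := fun b => (Quotient.mk (MulAction.orbitRel Γ A) b).out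
  have hrep : ∀ b, ∃ g : Γ, g • b = rep b := by
    intro b
    have h1 : (MulAction.orbitRel Γ A) (rep b) b :=
      Quotient.exact (Quotient.out_eq (Quotient.mk (MulAction.orbitRel Γ A) b))
    rw [MulAction.orbitRel_apply] at h1
    obtain ⟨g, hg⟩ := h1
    exact ⟨g, hg⟩
  have hrep2 : ∀ (γ : Γ) b, rep (γ • b) = rep b := by
    intro γ b
    have h1 : (Quotient.mk (MulAction.orbitRel Γ A) (γ • b)) =
        Quotient.mk (MulAction.orbitRel Γ A) b :=
      Quotient.sound (MulAction.orbitRel_apply.2 ⟨γ, rfl⟩)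
    show (Quotient.mk (MulAction.orbitRel Γ A) (γ • b)).out = _
    rw [h1]
  have hrep3 : ∀ b, rep (rep b) = rep b := by
    intro b
    obtain ⟨g, hg⟩ := hrep b
    conv_lhs => rw [← hg]
    rw [hrep2]
  have hRf : (Set.range rep).Finite := by
    have h1 : Set.range rep ⊆ Set.range (fun q : MulAction.orbitRel.Quotient Γ A => q.out) := by
      rintro _ ⟨a, rfl⟩
      exact ⟨Quotient.mk (MulAction.orbitRel Γ A) a, rfl⟩
    exact (Set.finite_range _).subset h1
  let star : A → Finset A := fun a => insert a (hD a).1.toFinset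
  have hstar : ∀ a b, b ∈ star a ↔ b = a ∨ adj a b := by
    intro a b
    rw [Finset.mem_insert, Set.Finite.mem_toFinset]
    constructor
    · rintro (h | h)
      · exact Or.inl h
      · exact Or.inr h.2
    · rintro (h | h)
      · exact Or.inl h
      · by_cases hb : b = a
        · exact Or.inl hb
        · exact Or.inr ⟨hb, h⟩
  have hcard : ∀ a, (star a).card ≤ D + 1 := by
    intro a
    refine (Finset.card_insert_le _ _).trans ?_
    have h1 := (hD a).2
    rw [Set.ncard_eq_toFinset_card _ (hD a).1] at h1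
    omega
  refine ⟨hRf.toFinset.image star, ?_, ?_, ?_, ?_, ?_⟩
  · intro t ht
    obtain ⟨a, _, rfl⟩ := Finset.mem_image.1 ht
    exact ⟨a, Finset.mem_insert_self _ _⟩
  · intro t ht
    obtain ⟨a, _, rfl⟩ := Finset.mem_image.1 ht
    exact hcard a
  · intro t ht b hb c hc γ hγ
    obtain ⟨a, _, rfl⟩ := Finset.mem_image.1 ht
    exact hreg a b c ((hstar a b).1 hb) ((hstar a c).1 hc) γ hγ
  · intro a
    obtain ⟨γ, hγ⟩ := hrep a
    refine ⟨star (rep a), Finset.mem_image_of_mem _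
      (hRf.mem_toFinset.2 ⟨a, rfl⟩), γ, ?_, ?_⟩
    · rw [hγ, hstar]
      exact Or.inl rfl
    · intro b hb
      rw [hstar, ← hγ]
      exact Or.inr (hinv γ a b hb)
  · intro t ht
    obtain ⟨a, ha, rfl⟩ := Finset.mem_image.1 ht
    rw [hRf.mem_toFinset] at ha
    obtain ⟨a₀, ha₀⟩ := ha
    have haa : rep a = a := by rw [← ha₀, hrep3]
    have h1 : (hRf.toFinset.image star).filter (fun t' => t' ≠ star a ∧ Meets Γ (star a) t') ⊆
        (((star a).biUnion star).erase a).image (fun c => star (rep c)) := by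
      intro t' ht'
      rw [Finset.mem_filter] at ht'
      obtain ⟨h2, h3, γ, b, hb, hb'⟩ := ht'
      obtain ⟨a', ha', rfl⟩ := Finset.mem_image.1 h2
      rw [hRf.mem_toFinset] at ha'
      obtain ⟨a₁, ha₁⟩ := ha'
      have haa' : rep a' = a' := by rw [← ha₁, hrep3]
      have hc : rep (γ⁻¹ • a') = a' := by rw [hrep2, haa']
      refine Finset.mem_image.2 ⟨γ⁻¹ • a', ?_, by rw [hc]⟩
      rw [Finset.mem_erase]
      refine ⟨?_, ?_⟩
      · intro h4
        rw [h4, haa] at hc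
        rw [hc] at h3
        exact h3 rfl
      · rw [Finset.mem_biUnion]
        refine ⟨b, hb, ?_⟩
        rw [hstar] at hb' ⊢
        rcases hb' with h4 | h4
        · left
          rw [← h4, inv_smul_smul]
        · right
          have h5 := hinv γ⁻¹ _ _ (hsym _ _ h4)
          rwa [inv_smul_smul] at h5
    refine (Finset.card_le_card h1).trans (Finset.card_image_le.trans ?_)
    have h2 : a ∈ (star a).biUnion star :=
      Finset.mem_biUnion.2 ⟨a, (hstar a a).2 (Or.inl rfl), (hstar a a).2 (Or.inl rfl)⟩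
    rw [Finset.card_erase_of_mem h2]
    have h3 : ((star a).biUnion star).card ≤ (D + 1) ^ 2 := by
      refine Finset.card_biUnion_le.trans ?_
      refine (Finset.sum_le_card_nsmul _ _ (D + 1) fun b _ => hcard b).trans ?_
      rw [smul_eq_mul, sq]
      exact Nat.mul_le_mul_right _ (hcard a)
    omega

end

end Pool.Agent.D0H26.RR
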