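import Pool.Agent.D0H26.RR.Deg

/-!
# Equivariant rays with random signs, several vertices of an orbit in a simplex (helper26)
-/

set_option autoImplicit false

namespace Pool.Agent.D0H26.RR

open Finset Module
open Pool.Agent.Helper93K9.Wendel (sg)
open Pool.Agent.Helper635.LLL (cnt)

section
variable {Γ A M : Type} [Group Γ] [MulAction Γ A] [AddCommGroup M] [Module ℝ M]

open Classical in
/-- random signs for several families -/
theorem exists_omega2 [FiniteDimensional ℝ M] {T ι : Type} [Fintype T]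
    (I : Finset ι) (τ : ι → Finset A) (hne : ∀ i ∈ I, (τ i).Nonempty) (o : A → T)
    (hinj : ∀ i ∈ I, Set.InjOn o (τ i : Set A)) (u : A → M)
    (hu2 : ∀ i ∈ I, ∀ s ⊆ τ i, s.card ≤ finrank ℝ M → LinearIndepOn ℝ u (s : Set A))
    (near : ι → ι → Prop)
    (hnear : ∀ i ∈ I, ∀ j ∈ I, near i j ↔ ∃ a ∈ τ i, ∃ b ∈ τ j, o a = o b)
    (q : ι → ℝ) (hq : ∀ i ∈ I, pr (finrank ℝ M) (τ i).card ≤ q i)
    (hp : ∑ i ∈ I, q i < 1 ∨
      ∃ x : ι → ℝ, (∀ i ∈ I, 0 ≤ x i ∧ x i < 1) ∧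
        ∀ i ∈ I, q i ≤ x i * ∏ j ∈ I.filter (fun j => j ≠ i ∧ near i j), (1 - x j)) :
    ∃ ω : T → Bool, ∀ i ∈ I, ∃ f : M →ₗ[ℝ] ℝ, ∀ a ∈ τ i, 0 < sg (ω (o a)) * f (u a) := by
  let B : ι → (T → Bool) → Prop := fun i ω =>
    ¬ ∃ f : M →ₗ[ℝ] ℝ, ∀ a ∈ τ i, 0 < sg (ω (o a)) * f (u a)
  have hprob : ∀ i ∈ I, (cnt (B i) : ℝ) ≤ q i * Fintype.card (T → Bool) := fun i hi =>
    (signs (τ i) (hne i hi) o (hinj i hi) u (hu2 i hi)).trans
      (mul_le_mul_of_nonneg_right (hq i hi) (Nat.cast_nonneg _))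
  have hcard : 0 < Fintype.card (T → Bool) := Fintype.card_pos
  have hω : ∃ ω : T → Bool, ∀ i ∈ I, ¬ B i ω := by
    rcases hp with h1 | ⟨x, hx, hx2⟩
    · exact union_bound I B q hprob h1 hcard
    · refine lll_weights I B (fun i => (τ i).image o) ?_ x (fun i hi => (hx i hi).1)
        (fun i hi => (hx i hi).2) ?_ hcard
      · intro i _ ω ω' h hb
        rintro ⟨f, hf⟩
        refine hb ⟨f, fun a ha => ?_⟩
        rw [h (o a) (Finset.mem_image_of_mem _ ha)]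
        exact hf a ha
      · intro i hi
        refine (hprob i hi).trans (mul_le_mul_of_nonneg_right
          ((hx2 i hi).trans (le_of_eq ?_)) (Nat.cast_nonneg _))
        congr 1
        refine Finset.prod_congr ?_ fun _ _ => rfl
        ext j
        simp only [Finset.mem_filter]
        refine and_congr_right fun hj => and_congr_right fun _ => ?_
        rw [Finset.not_disjoint_iff, hnear i hi j hj]
        constructor
        · rintro ⟨a, ha, b, hb, hab⟩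
          exact ⟨o a, Finset.mem_image_of_mem _ ha, hab ▸ Finset.mem_image_of_mem _ hb⟩
        · rintro ⟨y, hy, hy'⟩
          rw [Finset.mem_image] at hy hy'
          obtain ⟨a, ha, rfl⟩ := hy
          obtain ⟨b, hb, hab⟩ := hy'
          exact ⟨a, ha, b, hb, hab.symm⟩
  obtain ⟨ω, hω⟩ := hω
  exact ⟨ω, fun i hi => not_not.1 (hω i hi)⟩

open Classical in
/-- **Rays with random signs.** -/
theorem exists_signed2 [FiniteDimensional ℝ M]
    (ρ : Γ → M →ₗ[ℝ] M) (ρ1 : ∀ m, ρ 1 m = m) (ρmul : ∀ γ δ m, ρ (γ * δ) m = ρ γ (ρ δ m))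
    (ℳ : Finset (Finset A)) (hne : ∀ t ∈ ℳ, t.Nonempty)
    (hreg : ∀ t ∈ ℳ, ∀ a ∈ t, ∀ b ∈ t, ∀ γ : Γ, γ • a = b →
      ∃ c : ℝ, 0 < c ∧ ∀ m, ρ γ m = c • m)
    (hp : ∑ t ∈ ℳ, pr (finrank ℝ M) t.card < 1 ∨
      ∃ x : Finset A → ℝ, (∀ t ∈ ℳ, 0 ≤ x t ∧ x t < 1) ∧
        ∀ t ∈ ℳ, pr (finrank ℝ M) t.card ≤
          x t * ∏ t' ∈ ℳ.filter (fun t' => t' ≠ t ∧ Meets Γ t t'), (1 - x t')) :
    ∃ v : A → M, (∀ (γ : Γ) a, ∃ c : ℝ, 0 < c ∧ ρ γ (v a) = c • v (γ • a)) ∧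
      ∀ t ∈ ℳ, ∃ f : M →ₗ[ℝ] ℝ, ∀ a ∈ t, 0 < f (v a) := by
  let mk : A → Quotient (MulAction.orbitRel Γ A) := fun a => Quotient.mk _ a
  have hmk : ∀ (γ : Γ) a, mk (γ • a) = mk a := fun γ a =>
    Quotient.sound (MulAction.orbitRel_apply.2 ⟨γ, rfl⟩)
  have hmk2 : ∀ a b, mk a = mk b → ∃ γ : Γ, γ • a = b := by
    intro a b h
    have h1 : (MulAction.orbitRel Γ A) b a := Quotient.exact h.symm
    rw [MulAction.orbitRel_apply] at h1
    obtain ⟨γ, hγ⟩ := h1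
    exact ⟨γ, hγ⟩
  have hred : ∀ t : Finset A, ∃ t' : Finset A, t' ⊆ t ∧ Set.InjOn mk (t' : Set A) ∧
      ∀ a ∈ t, ∃ b ∈ t', mk b = mk a := by
    intro t
    obtain ⟨s, hs, hb⟩ := Set.exists_subset_bijOn (t : Set A) mk
    have hsf : s.Finite := t.finite_toSet.subset hs
    refine ⟨hsf.toFinset, fun a ha => hs (hsf.mem_toFinset.1 ha), ?_, ?_⟩
    · intro a ha b hb' h
      exact hb.injOn (hsf.mem_toFinset.1 ha) (hsf.mem_toFinset.1 hb') h
    · intro a ha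
      obtain ⟨b, hb', h⟩ := hb.surjOn ⟨a, ha, rfl⟩
      exact ⟨b, hsf.mem_toFinset.2 hb', h⟩
  choose red hred1 hred2 hred3 using hred
  obtain ⟨u, hu1, hu2⟩ := exists_generic ρ ρ1 ρmul (ℳ.image red) (by
      intro t ht a ha b hb γ hγ
      obtain ⟨t₀, _, rfl⟩ := Finset.mem_image.1 ht
      refine hred2 t₀ ha hb ?_
      rw [← hγ, hmk]) (by
      intro t ht a ha γ hγ
      obtain ⟨t₀, ht₀, rfl⟩ := Finset.mem_image.1 ht
      exact hreg t₀ ht₀ a (hred1 t₀ ha) a (hred1 t₀ ha) γ hγ)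
  let R : Finset (Quotient (MulAction.orbitRel Γ A)) := (ℳ.biUnion id).image mk
  by_cases hRne : R.Nonempty
  swap
  · refine ⟨u, hu1, fun t ht => ?_⟩
    obtain ⟨a, ha⟩ := hne t ht
    exact absurd ⟨mk a, Finset.mem_image_of_mem _ (Finset.mem_biUnion.2 ⟨t, ht, ha⟩)⟩ hRne
  obtain ⟨q₀, hq₀⟩ := hRne
  let o : A → R := fun a => if h : mk a ∈ R then ⟨mk a, h⟩ else ⟨q₀, hq₀⟩
  have ho1 : ∀ t ∈ ℳ, ∀ a ∈ t, (o a).1 = mk a := by
    intro t ht a ha
    have h : mk a ∈ R := Finset.mem_image_of_mem _ (Finset.mem_biUnion.2 ⟨t, ht, ha⟩)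
    show (if h : mk a ∈ R then (⟨mk a, h⟩ : R) else ⟨q₀, hq₀⟩).1 = mk a
    rw [dif_pos h]
  have ho2 : ∀ (γ : Γ) a, o (γ • a) = o a := by
    intro γ a
    show (if h : mk (γ • a) ∈ R then (⟨mk (γ • a), h⟩ : R) else ⟨q₀, hq₀⟩) =
      (if h : mk a ∈ R then (⟨mk a, h⟩ : R) else ⟨q₀, hq₀⟩)
    simp only [hmk]
  have ho3 : ∀ t ∈ ℳ, ∀ a ∈ t, ∀ t' ∈ ℳ, ∀ b ∈ t', o a = o b → mk a = mk b := by
    intro t ht a ha t' ht' b hb h
    rw [← ho1 t ht a ha, ← ho1 t' ht' b hb, h]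
  have hω := exists_omega2 ℳ red (by
      intro t ht
      obtain ⟨a, ha⟩ := hne t ht
      obtain ⟨b, hb, _⟩ := hred3 t a ha
      exact ⟨b, hb⟩) o (by
      intro t ht a ha b hb h
      exact hred2 t ha hb (ho3 t ht a (hred1 t ha) t ht b (hred1 t hb) h)) u
    (fun t ht => hu2 (red t) (Finset.mem_image_of_mem _ ht)) (Meets Γ) (by
      intro t ht t' ht'
      constructor
      · rintro ⟨γ, a, ha, ha'⟩
        obtain ⟨b, hb, hba⟩ := hred3 t a ha
        obtain ⟨b', hb', hba'⟩ := hred3 t' (γ • a) ha'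
        refine ⟨b, hb, b', hb', Subtype.ext ?_⟩
        rw [ho1 t ht b (hred1 t hb), ho1 t' ht' b' (hred1 t' hb'), hba, hba', hmk]
      · rintro ⟨a, ha, b, hb, hab⟩
        obtain ⟨γ, hγ⟩ := hmk2 a b (ho3 t ht a (hred1 t ha) t' ht' b (hred1 t' hb) hab)
        exact ⟨γ, a, hred1 t ha, hγ ▸ hred1 t' hb⟩)
    (fun t => pr (finrank ℝ M) t.card)
    (fun t _ => pr_mono _ (Finset.card_le_card (hred1 t))) (by
      rcases hp with h | ⟨x, hx, h⟩
      · exact Or.inl h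
      · refine Or.inr ⟨x, hx, fun t ht => ?_⟩
        convert h t ht)
  obtain ⟨ω, hω⟩ := hω
  have heq : ∀ (γ : Γ) a, ∃ c : ℝ, 0 < c ∧
      ρ γ (sg (ω (o a)) • u a) = c • (sg (ω (o (γ • a))) • u (γ • a)) := by
    intro γ a
    obtain ⟨c, hc, h⟩ := hu1 γ a
    refine ⟨c, hc, ?_⟩
    rw [ho2, map_smul, h, smul_comm]
  refine ⟨fun a => sg (ω (o a)) • u a, heq, ?_⟩
  intro t ht
  obtain ⟨f, hf⟩ := hω t ht
  have hf' : ∀ b ∈ red t, 0 < f (sg (ω (o b)) • u b) := by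
    intro b hb
    rw [map_smul, smul_eq_mul]
    exact hf b hb
  refine ⟨f, fun a ha => ?_⟩
  obtain ⟨b, hb, hba⟩ := hred3 t a ha
  obtain ⟨γ, hγ⟩ := hmk2 b a hba
  obtain ⟨c, hc, h⟩ := hreg t ht b (hred1 t hb) a ha γ hγ
  obtain ⟨c', hc', h'⟩ := heq γ b
  rw [h, hγ] at h'
  have h2 : c * f (sg (ω (o b)) • u b) = c' * f (sg (ω (o a)) • u a) := by
    rw [← smul_eq_mul, ← map_smul, h', map_smul, smul_eq_mul]
  have h3 := mul_pos hc (hf' b hb)
  rw [h2] at h3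
  exact (mul_pos_iff_of_pos_left hc').1 h3

open Classical in
/-- **Degrees.** -/
theorem degree2 (S : Γ → Prop) (adj : A → A → Prop) (hsym : ∀ a b, adj a b → adj b a)
    (hinv : ∀ (γ : Γ) a b, adj a b → adj (γ • a) (γ • b))
    (R₀ : Set A) (hR₀ : R₀.Finite) (hfin : ∀ a, ∃ γ : Γ, γ • a ∈ R₀) (D : ℕ)
    (hD : ∀ a, {b | b ≠ a ∧ adj a b}.Finite ∧ {b | b ≠ a ∧ adj a b}.ncard ≤ D)
    (hreg : ∀ a b c, (b = a ∨ adj a b) → (c = a ∨ adj a c) → ∀ γ : Γ, γ • b = c → S γ) :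
    ∃ ℳ : Finset (Finset A), (∀ t ∈ ℳ, t.Nonempty) ∧ (∀ t ∈ ℳ, t.card ≤ D + 1) ∧
      (∀ t ∈ ℳ, ∀ a ∈ t, ∀ b ∈ t, ∀ γ : Γ, γ • a = b → S γ) ∧
      (∀ a, ∃ t ∈ ℳ, ∃ γ : Γ, γ • a ∈ t ∧ ∀ b, adj a b → γ • b ∈ t) ∧
      ∀ t ∈ ℳ, (ℳ.filter (fun t' => t' ≠ t ∧ Meets Γ t t')).card ≤ (D + 1) ^ 2 - 1 := by
  let rep : A → A := fun b => (Quotient.mk (MulAction.orbitRel Γ A) b).out
  have hrep : ∀ b, ∃ g : Γ, g • b = rep b := by
    intro b
    have h1 : (MulAction.orbitRel Γ A) (rep b) b :=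
      Quotient.exact (Quotient.out_eq (Quotient.mk (MulAction.orbitRel Γ A) b))
    rw [MulAction.orbitRel_apply] at h1
    obtain ⟨g, hg⟩ := h1
    exact ⟨g, hg⟩
  have hrep2 : ∀ (γ : Γ) b, rep (γ • b) = rep b := by
    intro γ b
    have h1 : (Quotient.mk (MulAction.orbitRel Γ A) (γ • b)) =
        Quotient.mk (MulAction.orbitRel Γ A) b :=
      Quotient.sound (MulAction.orbitRel_apply.2 ⟨γ, rfl⟩)
    show (Quotient.mk (MulAction.orbitRel Γ A) (γ • b)).out = _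
    rw [h1]
  have hrep3 : ∀ b, rep (rep b) = rep b := by
    intro b
    obtain ⟨g, hg⟩ := hrep b
    conv_lhs => rw [← hg]
    rw [hrep2]
  have hRf : (Set.range rep).Finite := by
    refine (hR₀.image rep).subset ?_
    rintro _ ⟨a, rfl⟩
    obtain ⟨γ, hγ⟩ := hfin a
    exact ⟨γ • a, hγ, hrep2 γ a⟩
  let star : A → Finset A := fun a => insert a (hD a).1.toFinset
  have hstar : ∀ a b, b ∈ star a ↔ b = a ∨ adj a b := by
    intro a b
    rw [Finset.mem_insert, Set.Finite.mem_toFinset]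
    constructor
    · rintro (h | h)
      · exact Or.inl h
      · exact Or.inr h.2
    · rintro (h | h)
      · exact Or.inl h
      · by_cases hb : b = a
        · exact Or.inl hb
        · exact Or.inr ⟨hb, h⟩
  have hcard : ∀ a, (star a).card ≤ D + 1 := by
    intro a
    refine (Finset.card_insert_le _ _).trans ?_
    have h1 := (hD a).2
    rw [Set.ncard_eq_toFinset_card _ (hD a).1] at h1
    omega
  refine ⟨hRf.toFinset.image star, ?_, ?_, ?_, ?_, ?_⟩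
  · intro t ht
    obtain ⟨a, _, rfl⟩ := Finset.mem_image.1 ht
    exact ⟨a, Finset.mem_insert_self _ _⟩
  · intro t ht
    obtain ⟨a, _, rfl⟩ := Finset.mem_image.1 ht
    exact hcard a
  · intro t ht b hb c hc γ hγ
    obtain ⟨a, _, rfl⟩ := Finset.mem_image.1 ht
    exact hreg a b c ((hstar a b).1 hb) ((hstar a c).1 hc) γ hγ
  · intro a
    obtain ⟨γ, hγ⟩ := hrep a
    refine ⟨star (rep a), Finset.mem_image_of_mem _
      (hRf.mem_toFinset.2 ⟨a, rfl⟩), γ, ?_, ?_⟩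
    · rw [hγ, hstar]
      exact Or.inl rfl
    · intro b hb
      rw [hstar, ← hγ]
      exact Or.inr (hinv γ a b hb)
  · intro t ht
    obtain ⟨a, ha, rfl⟩ := Finset.mem_image.1 ht
    rw [hRf.mem_toFinset] at ha
    obtain ⟨a₀, ha₀⟩ := ha
    have haa : rep a = a := by rw [← ha₀, hrep3]
    have h1 : (hRf.toFinset.image star).filter (fun t' => t' ≠ star a ∧ Meets Γ (star a) t') ⊆
        (((star a).biUnion star).erase a).image (fun c => star (rep c)) := by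
      intro t' ht'
      rw [Finset.mem_filter] at ht'
      obtain ⟨h2, h3, γ, b, hb, hb'⟩ := ht'
      obtain ⟨a', ha', rfl⟩ := Finset.mem_image.1 h2
      rw [hRf.mem_toFinset] at ha'
      obtain ⟨a₁, ha₁⟩ := ha'
      have haa' : rep a' = a' := by rw [← ha₁, hrep3]
      have hc : rep (γ⁻¹ • a') = a' := by rw [hrep2, haa']
      refine Finset.mem_image.2 ⟨γ⁻¹ • a', ?_, by rw [hc]⟩
      rw [Finset.mem_erase]
      refine ⟨?_, ?_⟩
      · intro h4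
        rw [h4, haa] at hc
        rw [hc] at h3
        exact h3 rfl
      · rw [Finset.mem_biUnion]
        refine ⟨b, hb, ?_⟩
        rw [hstar] at hb' ⊢
        rcases hb' with h4 | h4
        · left
          rw [← h4, inv_smul_smul]
        · right
          have h5 := hinv γ⁻¹ _ _ (hsym _ _ h4)
          rwa [inv_smul_smul] at h5
    refine (Finset.card_le_card h1).trans (Finset.card_image_le.trans ?_)
    have h2 : a ∈ (star a).biUnion star :=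
      Finset.mem_biUnion.2 ⟨a, (hstar a a).2 (Or.inl rfl), (hstar a a).2 (Or.inl rfl)⟩
    rw [Finset.card_erase_of_mem h2]
    have h3 : ((star a).biUnion star).card ≤ (D + 1) ^ 2 := by
      refine Finset.card_biUnion_le.trans ?_
      refine (Finset.sum_le_card_nsmul _ _ (D + 1) fun b _ => hcard b).trans ?_
      rw [smul_eq_mul, sq]
      exact Nat.mul_le_mul_right _ (hcard a)
    omega

end

end Pool.Agent.D0H26.RR
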