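import Pool.Agent.D0H26.SS.Lev
import Pool.Agent.D0H26.RR.Gen2

/-!
# Simplices of dimension `m` (helper26)
-/

set_option autoImplicit false

namespace Pool.Agent.D0H26.RR

open Finset

section
variable {Γ A : Type} [Group Γ] [MulAction Γ A]

open Classical in
/-- **Representatives of the simplices of dimension at most `m`.** -/
theorem faces (S : Γ → Prop) (𝒦 : Set (Finset A)) (m q : ℕ)
    (hi : ∀ (γ : Γ), ∀ s ∈ 𝒦, s.map (MulAction.toPerm γ).toEmbedding ∈ 𝒦)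
    (R₀ : Set A) (hR₀ : R₀.Finite) (hfin : ∀ a, ∃ γ : Γ, γ • a ∈ R₀)
    (hD : ∀ a, {b | b ≠ a ∧ ∃ s ∈ 𝒦, a ∈ s ∧ b ∈ s}.Finite)
    (hq : ∀ a, {s | s ∈ 𝒦 ∧ a ∈ s ∧ s.card = m + 1}.ncard ≤ q)
    (hreg : ∀ (s : Finset A), s ∈ 𝒦 → ∀ a ∈ s, ∀ b ∈ s, ∀ γ : Γ, γ • a = b → S γ) :
    ∃ ℳ : Finset (Finset A), (∀ t ∈ ℳ, t.Nonempty) ∧ (∀ t ∈ ℳ, t.card ≤ m + 1) ∧
      (∀ t ∈ ℳ, ∀ a ∈ t, ∀ b ∈ t, ∀ γ : Γ, γ • a = b → S γ) ∧
      (∀ s ∈ 𝒦, s.Nonempty → s.card ≤ m + 1 → ∃ t ∈ ℳ, ∃ γ : Γ, ∀ a ∈ s, γ • a ∈ t) ∧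
      ∀ t ∈ ℳ, t.card = m + 1 →
        (ℳ.filter (fun t' => (t' ≠ t ∧ Meets Γ t t') ∧ t'.card = m + 1)).card + 1 ≤
          (m + 1) * q := by
  let _ := Pool.Agent.D0H26.SS.actS Γ A
  have hsm : ∀ (γ : Γ) (s : Finset A), γ • s = s.map (MulAction.toPerm γ).toEmbedding :=
    fun γ s => rfl
  have hmem : ∀ (γ : Γ) (s : Finset A) (a : A), γ • a ∈ γ • s ↔ a ∈ s := by
    intro γ s a
    rw [hsm, Pool.Agent.D0H26.SS.mem_map_perm, inv_smul_smul]
  have hcd : ∀ (γ : Γ) (s : Finset A), (γ • s).card = s.card := fun γ s => Finset.card_map _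
  let rep : Finset A → Finset A := fun b => (Quotient.mk (MulAction.orbitRel Γ (Finset A)) b).out
  have hrep : ∀ b, ∃ g : Γ, g • b = rep b := by
    intro b
    have h1 : (MulAction.orbitRel Γ (Finset A)) (rep b) b :=
      Quotient.exact (Quotient.out_eq (Quotient.mk (MulAction.orbitRel Γ (Finset A)) b))
    rw [MulAction.orbitRel_apply] at h1
    obtain ⟨g, hg⟩ := h1
    exact ⟨g, hg⟩
  have hrep2 : ∀ (γ : Γ) (b : Finset A), rep (γ • b) = rep b := by
    intro γ b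
    have h1 : (Quotient.mk (MulAction.orbitRel Γ (Finset A)) (γ • b)) =
        Quotient.mk (MulAction.orbitRel Γ (Finset A)) b :=
      Quotient.sound (MulAction.orbitRel_apply.2 ⟨γ, rfl⟩)
    show (Quotient.mk (MulAction.orbitRel Γ (Finset A)) (γ • b)).out = _
    rw [h1]
  have hrep3 : ∀ b, rep (rep b) = rep b := by
    intro b
    obtain ⟨g, hg⟩ := hrep b
    conv_lhs => rw [← hg]
    rw [hrep2]
  -- simplices at a vertex
  have hat : ∀ a, {s | s ∈ 𝒦 ∧ a ∈ s}.Finite := by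
    intro a
    refine (((((hD a).toFinset ∪ {a}).powerset).finite_toSet)).subset ?_
    rintro s ⟨hs, has⟩
    rw [Finset.mem_coe, Finset.mem_powerset]
    intro b hb
    rw [Finset.mem_union, Set.Finite.mem_toFinset, Finset.mem_singleton]
    by_cases h : b = a
    · exact Or.inr h
    · exact Or.inl ⟨h, s, hs, has, hb⟩
  let P₀ : Set (Finset A) := {s | s ∈ 𝒦 ∧ s.card ≤ m + 1 ∧ ∃ a ∈ R₀, a ∈ s}
  have hP₀ : P₀.Finite := by
    refine (hR₀.biUnion fun a _ => hat a).subset ?_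
    rintro s ⟨hs, _, a, ha, has⟩
    exact Set.mem_biUnion ha ⟨hs, has⟩
  have hmov : ∀ s ∈ 𝒦, s.Nonempty → s.card ≤ m + 1 → rep s ∈ rep '' P₀ := by
    rintro s hs ⟨a, ha⟩ hc
    obtain ⟨γ, hγ⟩ := hfin a
    refine ⟨γ • s, ⟨hi γ s hs, by rw [hcd]; exact hc, γ • a, hγ, (hmem γ s a).2 ha⟩, hrep2 γ s⟩
  have hM : ∀ t ∈ (hP₀.image rep).toFinset, t ∈ 𝒦 ∧ t.Nonempty ∧ t.card ≤ m + 1 ∧ rep t = t := by
    intro t ht
    rw [Set.Finite.mem_toFinset] at ht
    obtain ⟨s, ⟨hs, hc, a, _, ha⟩, rfl⟩ := ht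
    obtain ⟨g, hg⟩ := hrep s
    refine ⟨?_, ?_, ?_, hrep3 s⟩
    · rw [← hg]
      exact hi g s hs
    · rw [← hg]
      exact ⟨g • a, (hmem g s a).2 ha⟩
    · rw [← hg, hcd]
      exact hc
  refine ⟨(hP₀.image rep).toFinset, fun t ht => (hM t ht).2.1, fun t ht => (hM t ht).2.2.1,
    fun t ht => hreg t (hM t ht).1, ?_, ?_⟩
  · intro s hs hne hc
    obtain ⟨g, hg⟩ := hrep s
    refine ⟨rep s, (Set.Finite.mem_toFinset _).2 (hmov s hs hne hc), g, fun a ha => ?_⟩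
    rw [← hg]
    exact (hmem g s a).2 ha
  · intro t ht htc
    obtain ⟨ht1, ⟨a₀, ha₀⟩, _, ht4⟩ := hM t ht
    have hfa : ∀ a, {s | s ∈ 𝒦 ∧ a ∈ s ∧ s.card = m + 1}.Finite := fun a =>
      (hat a).subset fun s hs => ⟨hs.1, hs.2.1⟩
    let F : A → Finset (Finset A) := fun a => (hfa a).toFinset
    have hF : ∀ a s, s ∈ F a ↔ s ∈ 𝒦 ∧ a ∈ s ∧ s.card = m + 1 := fun a s =>
      Set.Finite.mem_toFinset _
    have hFc : ∀ a, (F a).card ≤ q := by
      intro a
      have h1 := hq a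
      rw [Set.ncard_eq_toFinset_card _ (hfa a)] at h1
      exact h1
    have h1 : (hP₀.image rep).toFinset.filter
        (fun t' => (t' ≠ t ∧ Meets Γ t t') ∧ t'.card = m + 1) ⊆
        ((t.biUnion F).erase t).image rep := by
      intro t' ht'
      rw [Finset.mem_filter] at ht'
      obtain ⟨h2, ⟨h3, γ, a, ha, ha'⟩, hc'⟩ := ht'
      obtain ⟨g1, _, _, g4⟩ := hM t' h2
      have hc : rep (γ⁻¹ • t') = t' := by rw [hrep2, g4]
      refine Finset.mem_image.2 ⟨γ⁻¹ • t', ?_, hc⟩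
      rw [Finset.mem_erase]
      refine ⟨?_, ?_⟩
      · intro h4
        rw [h4, ht4] at hc
        exact h3 hc.symm
      · rw [Finset.mem_biUnion]
        refine ⟨a, ha, (hF _ _).2 ⟨hi γ⁻¹ t' g1, ?_, by rw [hcd]; exact hc'⟩⟩
        have h5 := (hmem γ⁻¹ t' (γ • a)).2 ha'
        rwa [inv_smul_smul] at h5
    have h2 : t ∈ t.biUnion F := Finset.mem_biUnion.2 ⟨a₀, ha₀, (hF _ _).2 ⟨ht1, ha₀, htc⟩⟩
    have h3 := (Finset.card_le_card h1).trans Finset.card_image_le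
    rw [Finset.card_erase_of_mem h2] at h3
    have h4 : (t.biUnion F).card ≤ (m + 1) * q := by
      refine Finset.card_biUnion_le.trans ?_
      refine (Finset.sum_le_card_nsmul _ _ q fun b _ => hFc b).trans ?_
      rw [smul_eq_mul, htc]
    have h5 : 0 < (t.biUnion F).card := Finset.card_pos.2 ⟨t, h2⟩
    omega

end

theorem pr_top (m : ℕ) : pr m (m + 1) = 1 / 2 ^ m := by
  unfold pr
  rw [Nat.Ico_succ_singleton, Finset.sum_singleton, Nat.add_sub_cancel, Nat.choose_self]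
  simp

theorem pr_small (m n : ℕ) (h : n ≤ m) : pr m n = 0 := by
  unfold pr
  rw [Finset.Ico_eq_empty_of_le h, Finset.sum_empty, zero_div]

open Classical in
/-- the bound for the number of simplices of dimension `m` at a vertex -/
theorem face_bound {A : Type} (ℳ : Finset (Finset A)) (near : Finset A → Finset A → Prop)
    (m q : ℕ) (hc : ∀ t ∈ ℳ, t.card ≤ m + 1)
    (hw : ∀ w : Finset A → ℝ, (∀ t ∈ ℳ, 0 ≤ w t ∧ w t < 1) →
      ∃ t ∈ ℳ, w t * ∏ t' ∈ ℳ.filter (fun t' => t' ≠ t ∧ near t t'), (1 - w t') <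
        pr m t.card)
    (hd : ∀ t ∈ ℳ, t.card = m + 1 →
        (ℳ.filter (fun t' => (t' ≠ t ∧ near t t') ∧ t'.card = m + 1)).card + 1 ≤
          (m + 1) * q) : (2 : ℝ) ^ m < Real.exp 1 * (m + 1) * q := by
  have h1 : ∀ w : Finset A → ℝ, (∀ t ∈ ℳ.filter (fun t => t.card = m + 1), 0 ≤ w t ∧ w t < 1) →
      ∃ t ∈ ℳ.filter (fun t => t.card = m + 1),
        w t * ∏ t' ∈ ℳ.filter (fun t' => (t' ≠ t ∧ near t t') ∧ t'.card = m + 1), (1 - w t') <
          pr m (m + 1) := by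
    intro w hw'
    obtain ⟨t, ht, h2⟩ := hw (fun t => if t.card = m + 1 then w t else 0) (by
      intro t ht
      by_cases h : t.card = m + 1
      · simp only [h, if_true]
        exact hw' t (Finset.mem_filter.2 ⟨ht, h⟩)
      · simp only [h, if_false]
        norm_num)
    by_cases h : t.card = m + 1
    · refine ⟨t, Finset.mem_filter.2 ⟨ht, h⟩, ?_⟩
      simp only [h, if_true] at h2
      refine lt_of_le_of_lt (le_of_eq ?_) h2
      congr 1
      rw [← Finset.filter_filter, Finset.prod_filter]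
      refine Finset.prod_congr rfl fun t' _ => ?_
      by_cases h' : t'.card = m + 1
      · simp only [h', if_true]
      · simp only [h', if_false, sub_zero]
    · exfalso
      have h3 := hc t ht
      rw [pr_small m t.card (by omega)] at h2
      simp only [h, if_false, zero_mul] at h2
      exact lt_irrefl _ h2
  obtain ⟨t, ht, h2⟩ := e_bound (ℳ.filter (fun t => t.card = m + 1))
    (fun t => ℳ.filter (fun t' => (t' ≠ t ∧ near t t') ∧ t'.card = m + 1))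
    (fun _ => pr m (m + 1)) h1 ((m + 1) * q - 1) (by
      intro t ht
      rw [Finset.mem_filter] at ht
      have := hd t ht.1 ht.2
      omega)
  rw [Finset.mem_filter] at ht
  have h3 := hd t ht.1 ht.2
  have h4 : (((m + 1) * q - 1 : ℕ) : ℝ) + 1 = (m + 1) * q := by
    rw [Nat.cast_sub (by omega)]
    push_cast
    ring
  rw [h4, pr_top] at h2
  have h5 : (0 : ℝ) < 2 ^ m := by positivity
  have h6 : Real.exp 1 * ((m + 1) * q) * (1 / 2 ^ m) = Real.exp 1 * (m + 1) * q / 2 ^ m := by ring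
  rw [h6, lt_div_iff₀ h5, one_mul] at h2
  exact h2

end Pool.Agent.D0H26.RR
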