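import Pool.Agent.H698R4.Malcev

/-!
# Subgroups of finite index which avoid finitely many elements modulo positive scalars (helper26)
-/

set_option autoImplicit false

namespace Pool.Agent.D0H26.RR

open Module

section
variable {Γ M : Type} [Group Γ] [AddCommGroup M] [Module ℝ M] [FiniteDimensional ℝ M]

omit [Group Γ] [FiniteDimensional ℝ M] in
/-- a positive scalar -/
def PS (ρ : Γ → M →ₗ[ℝ] M) (γ : Γ) : Prop := ∃ c : ℝ, 0 < c ∧ ∀ m, ρ γ m = c • m

/-- a linear representation whose kernel consists of the elements which act by positive scalars -/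
theorem exists_psi (ρ : Γ → M →ₗ[ℝ] M) (ρ1 : ∀ m, ρ 1 m = m)
    (ρmul : ∀ γ δ m, ρ (γ * δ) m = ρ γ (ρ δ m)) :
    ∃ (n : ℕ) (ψ : Γ →* Matrix (Fin n) (Fin n) ℂ), ∀ γ, ψ γ = 1 ↔ PS ρ γ := by
  classical
  let R : Γ →* Module.End ℝ M :=
    { toFun := ρ
      map_one' := LinearMap.ext ρ1
      map_mul' := fun γ δ => LinearMap.ext fun m => ρmul γ δ m }
  have hdet : ∀ γ, LinearMap.det (ρ γ) ≠ 0 := by
    intro γ h
    have h1 : R γ * R γ⁻¹ = 1 := by rw [← map_mul, mul_inv_cancel, map_one]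
    have h2 := congrArg LinearMap.det h1
    rw [map_mul, map_one] at h2
    have h3 : LinearMap.det (R γ) = 0 := h
    rw [h3, zero_mul] at h2
    exact zero_ne_one h2
  set n := finrank ℝ M with hn
  let f : Γ → ℝ := fun γ => |LinearMap.det (ρ γ)| ^ (-((n : ℝ)⁻¹))
  have hf0 : ∀ γ, 0 < f γ := fun γ => Real.rpow_pos_of_pos (abs_pos.2 (hdet γ)) _
  let ψ0 : Γ →* Module.End ℝ M :=
    { toFun := fun γ => f γ • R γ
      map_one' := by
        have h1 : f 1 = 1 := by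
          show |LinearMap.det (R 1)| ^ (-((n : ℝ)⁻¹)) = 1
          rw [map_one, map_one, abs_one, Real.one_rpow]
        rw [h1, map_one, one_smul]
      map_mul' := fun γ δ => by
        have h1 : f (γ * δ) = f γ * f δ := by
          show |LinearMap.det (R (γ * δ))| ^ (-((n : ℝ)⁻¹)) =
            |LinearMap.det (R γ)| ^ (-((n : ℝ)⁻¹)) * |LinearMap.det (R δ)| ^ (-((n : ℝ)⁻¹))
          rw [map_mul, map_mul, abs_mul, Real.mul_rpow (abs_nonneg _) (abs_nonneg _)]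
        rw [h1, map_mul, smul_mul_smul_comm] }
  let b : Basis (Fin n) ℝ M := finBasis ℝ M
  let ψ : Γ →* Matrix (Fin n) (Fin n) ℂ :=
    ((algebraMap ℝ ℂ).mapMatrix : Matrix (Fin n) (Fin n) ℝ →+* Matrix (Fin n) (Fin n) ℂ).toMonoidHom.comp
      (((LinearMap.toMatrixAlgEquiv b).toAlgHom.toRingHom.toMonoidHom).comp ψ0)
  have hinj : Function.Injective (fun x : Module.End ℝ M =>
      ((algebraMap ℝ ℂ).mapMatrix (LinearMap.toMatrixAlgEquiv b x) : Matrix (Fin n) (Fin n) ℂ)) :=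
    (Matrix.map_injective (algebraMap ℝ ℂ).injective).comp (LinearMap.toMatrixAlgEquiv b).injective
  have hψ : ∀ γ, ψ γ = 1 ↔ ψ0 γ = 1 := by
    intro γ
    have h1 : ((algebraMap ℝ ℂ).mapMatrix (LinearMap.toMatrixAlgEquiv b (1 : Module.End ℝ M)) :
        Matrix (Fin n) (Fin n) ℂ) = 1 := by rw [map_one, map_one]
    constructor
    · intro h
      refine hinj ?_
      show _ = ((algebraMap ℝ ℂ).mapMatrix (LinearMap.toMatrixAlgEquiv b (1 : Module.End ℝ M)) :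
        Matrix (Fin n) (Fin n) ℂ)
      rw [h1]
      exact h
    · intro h
      show ((algebraMap ℝ ℂ).mapMatrix (LinearMap.toMatrixAlgEquiv b (ψ0 γ)) :
        Matrix (Fin n) (Fin n) ℂ) = 1
      rw [h, h1]
  refine ⟨n, ψ, fun γ => ?_⟩
  rw [hψ]
  constructor
  · intro h
    refine ⟨(f γ)⁻¹, inv_pos.2 (hf0 γ), fun m => ?_⟩
    have h1 : f γ • ρ γ m = m := LinearMap.congr_fun h m
    rw [eq_inv_smul_iff₀ (hf0 γ).ne']
    exact h1
  · rintro ⟨c, hc, h⟩
    rcases Nat.eq_zero_or_pos n with h0 | hpos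
    · have : Subsingleton M := finrank_zero_iff.1 (hn ▸ h0)
      exact LinearMap.ext fun m => Subsingleton.elim _ _
    · have h1 : ρ γ = c • (LinearMap.id : M →ₗ[ℝ] M) := LinearMap.ext h
      have h2 : LinearMap.det (ρ γ) = c ^ n := by
        rw [h1, LinearMap.det_smul, LinearMap.det_id, mul_one]
      have h3 : f γ = c⁻¹ := by
        show |LinearMap.det (ρ γ)| ^ (-((n : ℝ)⁻¹)) = c⁻¹
        rw [h2, abs_of_pos (pow_pos hc n), Real.rpow_neg (pow_pos hc n).le,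
          Real.pow_rpow_inv_natCast hc.le (by omega)]
      refine LinearMap.ext fun m => ?_
      show f γ • ρ γ m = m
      rw [h, h3, inv_smul_smul₀ hc.ne']

/-- **Finite coverings.** -/
theorem exists_sub (hfg : Group.FG Γ) (ρ : Γ → M →ₗ[ℝ] M) (ρ1 : ∀ m, ρ 1 m = m)
    (ρmul : ∀ γ δ m, ρ (γ * δ) m = ρ γ (ρ δ m)) (Φ : Set Γ) (hΦ : Φ.Finite) :
    ∃ L : Subgroup Γ, L.FiniteIndex ∧ L.Normal ∧
      ∀ γ ∈ L, (∃ δ ∈ Φ, PS ρ (δ⁻¹ * γ)) → PS ρ γ := by
  classical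
  obtain ⟨n, ψ, hψ⟩ := exists_psi ρ ρ1 ρmul
  have key : ∀ δ : Γ, ∃ L : Subgroup Γ, L.FiniteIndex ∧ L.Normal ∧
      ∀ γ ∈ L, ψ γ = ψ δ → ψ δ = 1 := by
    intro δ
    by_cases hδ : ψ δ = 1
    · exact ⟨⊤, inferInstance, inferInstance, fun _ _ _ => hδ⟩
    let G := ψ.toHomUnits.range
    let π : Γ →* G := ψ.toHomUnits.rangeRestrict
    have hG : Group.FG G := Group.fg_of_surjective (f := π) ψ.toHomUnits.rangeRestrict_surjective
    obtain ⟨S, hS⟩ := Group.fg_def.1 hG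
    let ψ' : G →* Matrix (Fin n) (Fin n) ℂ := (Units.coeHom _).comp G.subtype
    have hπ : ∀ γ, ψ' (π γ) = ψ γ := fun γ => rfl
    obtain ⟨Q, _, _, q, hq⟩ := Pool.Agent.H698R4.malcev (fun i : S => i.1)
      (by rw [Subtype.range_coe_subtype]; exact hS) ψ' (π δ) (by rw [hπ]; exact hδ)
    refine ⟨(q.comp π).ker, Subgroup.finiteIndex_ker _, inferInstance, fun γ hγ h => ?_⟩
    exfalso
    have h1 : π γ = π δ := by
      apply Subtype.ext
      apply Units.ext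
      exact h
    have h2 : q (π γ) = 1 := hγ
    rw [h1] at h2
    exact hq h2
  choose L hL1 hL2 hL3 using key
  have : Finite Φ := hΦ.to_subtype
  refine ⟨⨅ δ : Φ, L δ.1, ?_, ?_, ?_⟩
  · exact Subgroup.finiteIndex_iInf fun δ => hL1 δ.1
  · exact Subgroup.normal_iInf_normal fun δ => hL2 δ.1
  · rintro γ hγ ⟨δ, hδ, h⟩
    have h1 : γ ∈ L δ := (Subgroup.mem_iInf.1 hγ) ⟨δ, hδ⟩
    have h2 : ψ γ = ψ δ := by
      have h3 := (hψ _).2 h
      calc ψ γ = ψ (δ * (δ⁻¹ * γ)) := by rw [mul_inv_cancel_left]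
        _ = ψ δ := by rw [map_mul, h3, mul_one]
    rw [← hψ, h2]
    exact hL3 δ γ h1 h2

end

end Pool.Agent.D0H26.RR
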