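import Pool.Agent.Helper635.LLL

/-!
# The local lemma with weights, for the uniform measure on a finite product (helper26)
-/

set_option autoImplicit false

namespace Pool.Agent.D0H26.RR

open Finset Classical
open Pool.Agent.Helper635.LLL (ev mem_ev cnt cnt_mono G indep)

variable {T C ι : Type} [Fintype T] [Fintype C]

theorem avoid_insert (B : ι → (T → C) → Prop) (J : Finset ι) (i : ι) :
    G B J ≤ G B (insert i J) + cnt (fun ω => B i ω ∧ ∀ j ∈ J, ¬ B j ω) := by
  have h : ev (fun ω : T → C => ∀ j ∈ J, ¬ B j ω) ⊆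
      ev (fun ω : T → C => ∀ j ∈ insert i J, ¬ B j ω) ∪
        ev (fun ω : T → C => B i ω ∧ ∀ j ∈ J, ¬ B j ω) := by
    intro ω hω
    rw [mem_ev] at hω
    rw [Finset.mem_union, mem_ev, mem_ev]
    by_cases hi : B i ω
    · exact Or.inr ⟨hi, hω⟩
    · refine Or.inl fun j hj => ?_
      rcases Finset.mem_insert.1 hj with rfl | h
      · exact hi
      · exact hω j h
  exact (Finset.card_le_card h).trans (Finset.card_union_le _ _)

theorem avoid_empty (B : ι → (T → C) → Prop) : G B (∅ : Finset ι) = Fintype.card (T → C) := by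
  have h0 : ev (fun ω : T → C => ∀ j ∈ (∅ : Finset ι), ¬ B j ω) = Finset.univ := by
    ext ω
    rw [mem_ev]
    simp
  rw [G, cnt, h0, Finset.card_univ]

theorem lll_key (I : Finset ι) (B : ι → (T → C) → Prop) (S : ι → Finset T)
    (hB : ∀ i ∈ I, Pool.Agent.Helper635.LLL.DependsOn (B i) (S i)) (x : ι → ℝ)
    (hx0 : ∀ i ∈ I, 0 ≤ x i) (hx1 : ∀ i ∈ I, x i < 1)
    (hp : ∀ i ∈ I, (cnt (B i) : ℝ) ≤ x i *
      (∏ j ∈ I.filter (fun j => j ≠ i ∧ ¬ Disjoint (S i) (S j)), (1 - x j)) *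
        Fintype.card (T → C))
    (hne : 0 < Fintype.card (T → C)) :
    ∀ (n : ℕ) (J : Finset ι), J.card = n → J ⊆ I → ∀ i ∈ I, i ∉ J →
      (cnt (fun ω => B i ω ∧ ∀ j ∈ J, ¬ B j ω) : ℝ) ≤ x i * (G B J : ℝ) := by
  intro n
  induction n using Nat.strong_induction_on with
  | _ n ih =>
    intro J hJn hJI i hi hiJ
    set J1 := J.filter (fun j => ¬ Disjoint (S i) (S j)) with hJ1
    set J2 := J.filter (fun j => Disjoint (S i) (S j)) with hJ2
    have hJ2J : J2 ⊆ J := Finset.filter_subset _ _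
    have hJ1J : J1 ⊆ J := Finset.filter_subset _ _
    have hN : (0 : ℝ) < (Fintype.card (T → C) : ℝ) := by exact_mod_cast hne
    have hG0 : ∀ K : Finset ι, (0 : ℝ) ≤ (G B K : ℝ) := fun K => Nat.cast_nonneg _
    set W := I.filter (fun j => j ≠ i ∧ ¬ Disjoint (S i) (S j)) with hW
    have hWpos : ∀ j ∈ W, 0 < 1 - x j := fun j hj =>
      sub_pos.2 (hx1 j (Finset.mem_filter.1 hj).1)
    have hnum : (cnt (fun ω => B i ω ∧ ∀ j ∈ J, ¬ B j ω) : ℝ) ≤
        x i * (∏ j ∈ W, (1 - x j)) * (G B J2 : ℝ) := by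
      have e1 : cnt (fun ω => B i ω ∧ ∀ j ∈ J, ¬ B j ω)
          ≤ cnt (fun ω => B i ω ∧ ∀ j ∈ J2, ¬ B j ω) :=
        cnt_mono (fun ω h => ⟨h.1, fun j hj => h.2 j (hJ2J hj)⟩)
      have e2 : cnt (fun ω => B i ω ∧ ∀ j ∈ J2, ¬ B j ω) * Fintype.card (T → C)
          = cnt (B i) * G B J2 := by
        refine indep (B i) (fun ω => ∀ j ∈ J2, ¬ B j ω) (S i) (hB i hi) ?_
        intro ω ω' hω hall j hj hbad
        refine hall j hj (hB j (hJI (hJ2J hj)) ω' ω ?_ hbad)
        intro t ht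
        have hdis : Disjoint (S i) (S j) := (Finset.mem_filter.mp hj).2
        exact (hω t (fun hti => (Finset.disjoint_left.mp hdis hti ht))).symm
      have e3 : (cnt (fun ω => B i ω ∧ ∀ j ∈ J2, ¬ B j ω) : ℝ) * (Fintype.card (T → C) : ℝ)
          = (cnt (B i) : ℝ) * (G B J2 : ℝ) := by exact_mod_cast e2
      have e4 := mul_le_mul_of_nonneg_right (hp i hi) (hG0 J2)
      have e5 : (cnt (fun ω => B i ω ∧ ∀ j ∈ J2, ¬ B j ω) : ℝ) ≤
          x i * (∏ j ∈ W, (1 - x j)) * (G B J2 : ℝ) := by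
        refine le_of_mul_le_mul_right ?_ hN
        rw [e3]
        linarith
      exact le_trans (by exact_mod_cast e1) e5
    have hden : ∀ K ⊆ J1, (∏ j ∈ K, (1 - x j)) * (G B J2 : ℝ) ≤ (G B (J2 ∪ K) : ℝ) := by
      intro K
      induction K using Finset.induction_on with
      | empty =>
        intro _
        rw [Finset.prod_empty, one_mul, Finset.union_empty]
      | insert k K hk ihK =>
        intro hsub
        have hkJ1 : k ∈ J1 := hsub (Finset.mem_insert_self k K)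
        have hKJ1 : K ⊆ J1 := (Finset.subset_insert k K).trans hsub
        have hk2 : k ∉ J2 ∪ K := by
          rw [Finset.mem_union]
          rintro (h | h)
          · exact (Finset.mem_filter.1 hkJ1).2 (Finset.mem_filter.1 h).2
          · exact hk h
        have hUJ : J2 ∪ K ⊆ J := Finset.union_subset hJ2J (hKJ1.trans hJ1J)
        have hcard : (J2 ∪ K).card < n := by
          rw [← hJn]
          refine Finset.card_lt_card ((Finset.ssubset_iff_of_subset hUJ).2 ⟨k, hJ1J hkJ1, hk2⟩)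
        have h1 := ih _ hcard (J2 ∪ K) rfl (hUJ.trans hJI) k (hJI (hJ1J hkJ1)) hk2
        have h2 : (G B (J2 ∪ K) : ℝ) ≤ (G B (insert k (J2 ∪ K)) : ℝ) +
            (cnt (fun ω => B k ω ∧ ∀ j ∈ J2 ∪ K, ¬ B j ω) : ℝ) := by
          exact_mod_cast avoid_insert B (J2 ∪ K) k
        have h3 := ihK hKJ1
        have h4 : 0 < 1 - x k := sub_pos.2 (hx1 k (hJI (hJ1J hkJ1)))
        have h5 := mul_le_mul_of_nonneg_left h3 h4.le
        rw [Finset.prod_insert hk, Finset.union_insert]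
        linarith
    have hJ12 : J2 ∪ J1 = J := by
      ext j
      rw [Finset.mem_union, Finset.mem_filter, Finset.mem_filter]
      by_cases h : Disjoint (S i) (S j) <;> simp [h]
    have h1 := hden J1 (Finset.Subset.refl _)
    rw [hJ12] at h1
    have hJ1W : J1 ⊆ W := by
      intro j hj
      rw [Finset.mem_filter] at hj ⊢
      exact ⟨hJI hj.1, fun h => hiJ (h ▸ hj.1), hj.2⟩
    have h2 : ∏ j ∈ W, (1 - x j) ≤ ∏ j ∈ J1, (1 - x j) := by
      rw [← Finset.prod_sdiff hJ1W]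
      refine mul_le_of_le_one_left
        (Finset.prod_nonneg fun j hj => (hWpos j (hJ1W hj)).le) ?_
      refine Finset.prod_le_one (fun j hj => (hWpos j (Finset.mem_sdiff.1 hj).1).le) ?_
      intro j hj
      have := hx0 j (Finset.mem_filter.1 (Finset.mem_sdiff.1 hj).1).1
      linarith
    calc (cnt (fun ω => B i ω ∧ ∀ j ∈ J, ¬ B j ω) : ℝ)
        ≤ x i * (∏ j ∈ W, (1 - x j)) * (G B J2 : ℝ) := hnum
      _ = x i * ((∏ j ∈ W, (1 - x j)) * (G B J2 : ℝ)) := by ring
      _ ≤ x i * ((∏ j ∈ J1, (1 - x j)) * (G B J2 : ℝ)) :=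
        mul_le_mul_of_nonneg_left (mul_le_mul_of_nonneg_right h2 (hG0 J2)) (hx0 i hi)
      _ ≤ x i * (G B J : ℝ) := mul_le_mul_of_nonneg_left h1 (hx0 i hi)

/-- **The local lemma with weights.** -/
theorem lll_weights (I : Finset ι) (B : ι → (T → C) → Prop) (S : ι → Finset T)
    (hB : ∀ i ∈ I, Pool.Agent.Helper635.LLL.DependsOn (B i) (S i)) (x : ι → ℝ)
    (hx0 : ∀ i ∈ I, 0 ≤ x i) (hx1 : ∀ i ∈ I, x i < 1)
    (hp : ∀ i ∈ I, (cnt (B i) : ℝ) ≤ x i *
      (∏ j ∈ I.filter (fun j => j ≠ i ∧ ¬ Disjoint (S i) (S j)), (1 - x j)) *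
        Fintype.card (T → C))
    (hne : 0 < Fintype.card (T → C)) : ∃ ω : T → C, ∀ i ∈ I, ¬ B i ω := by
  have hpos : ∀ J : Finset ι, J ⊆ I → 0 < G B J := by
    intro J
    induction J using Finset.induction_on with
    | empty =>
      intro _
      rw [avoid_empty]
      exact hne
    | insert i J hiJ ih =>
      intro hsub
      have hJ := ih ((Finset.subset_insert i J).trans hsub)
      have hi : i ∈ I := hsub (Finset.mem_insert_self i J)
      have hk := lll_key I B S hB x hx0 hx1 hp hne J.card J rfl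
        ((Finset.subset_insert i J).trans hsub) i hi hiJ
      have hsplit' : (G B J : ℝ) ≤ (G B (insert i J) : ℝ) +
          (cnt (fun ω => B i ω ∧ ∀ j ∈ J, ¬ B j ω) : ℝ) := by exact_mod_cast avoid_insert B J i
      have hJ' : (0 : ℝ) < (G B J : ℝ) := by exact_mod_cast hJ
      have h1 := hx1 i hi
      have : (0 : ℝ) < (G B (insert i J) : ℝ) := by nlinarith
      exact_mod_cast this
  have hI := hpos I (Finset.Subset.refl _)
  obtain ⟨ω, hω⟩ := Finset.card_pos.mp hI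
  exact ⟨ω, mem_ev.mp hω⟩

/-- **The union bound.** -/
theorem union_bound (I : Finset ι) (B : ι → (T → C) → Prop) (p : ι → ℝ)
    (hp : ∀ i ∈ I, (cnt (B i) : ℝ) ≤ p i * Fintype.card (T → C)) (h1 : ∑ i ∈ I, p i < 1)
    (hne : 0 < Fintype.card (T → C)) : ∃ ω : T → C, ∀ i ∈ I, ¬ B i ω := by
  have key : ∀ J : Finset ι, (Fintype.card (T → C) : ℝ) ≤
      (G B J : ℝ) + ∑ j ∈ J, (cnt (B j) : ℝ) := by
    intro J
    induction J using Finset.induction_on with
    | empty => rw [avoid_empty, Finset.sum_empty, add_zero]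
    | insert i J hiJ ih =>
      have h2 : (G B J : ℝ) ≤ (G B (insert i J) : ℝ) +
          (cnt (fun ω => B i ω ∧ ∀ j ∈ J, ¬ B j ω) : ℝ) := by exact_mod_cast avoid_insert B J i
      have h3 : (cnt (fun ω => B i ω ∧ ∀ j ∈ J, ¬ B j ω) : ℝ) ≤ (cnt (B i) : ℝ) := by
        exact_mod_cast cnt_mono (P := fun ω => B i ω ∧ ∀ j ∈ J, ¬ B j ω) (Q := B i) (fun ω h => h.1)
      rw [Finset.sum_insert hiJ]
      linarith
  have hN : (0 : ℝ) < (Fintype.card (T → C) : ℝ) := by exact_mod_cast hne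
  have h2 := key I
  have h3 : ∑ j ∈ I, (cnt (B j) : ℝ) ≤ (∑ j ∈ I, p j) * Fintype.card (T → C) := by
    rw [Finset.sum_mul]
    exact Finset.sum_le_sum fun j hj => hp j hj
  have h4 : (∑ j ∈ I, p j) * (Fintype.card (T → C) : ℝ) < Fintype.card (T → C) := by
    nlinarith
  have h5 : (0 : ℝ) < (G B I : ℝ) := by linarith
  have h6 : 0 < G B I := by exact_mod_cast h5
  obtain ⟨ω, hω⟩ := Finset.card_pos.mp h6
  exact ⟨ω, mem_ev.mp hω⟩

end Pool.Agent.D0H26.RR
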