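import Pool.Agent.Helper93K9.Wendel.Count
import Pool.Agent.D0H26.RR.Loc

/-!
# Random signs of vectors in general position (helper26)
-/

set_option autoImplicit false

namespace Pool.Agent.D0H26.RR

open Finset Module
open Pool.Agent.Helper93K9.Wendel
open Pool.Agent.Helper635.LLL (ev mem_ev cnt)

section
variable {V : Type} [AddCommGroup V] [Module ℝ V]

/-- contraction of independent functionals -/
theorem contr_indep {n : ℕ} (f : Fin (n + 1) → V →ₗ[ℝ] ℝ) (h0 : f 0 ≠ 0) (S : Finset (Fin n))
    (h : LinearIndepOn ℝ f (↑(insert 0 (S.map (Fin.succEmb n))) : Set (Fin (n + 1)))) :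
    LinearIndepOn ℝ (contr f) (↑S : Set (Fin n)) := by
  classical
  rw [linearIndepOn_finset_iff] at h ⊢
  intro g hg
  obtain ⟨w, hw⟩ : ∃ w, f 0 w ≠ 0 := by
    by_contra h
    push Not at h
    exact h0 (LinearMap.ext h)
  set v : V := (f 0 w)⁻¹ • w with hv
  have hv1 : f 0 v = 1 := by simp [hv, hw]
  set F : V →ₗ[ℝ] ℝ := ∑ i ∈ S, g i • f i.succ with hF
  have hker : ∀ y, f 0 y = 0 → F y = 0 := by
    intro y hy
    have := congrArg (fun L => L ⟨y, LinearMap.mem_ker.2 hy⟩) hg
    simpa [hF, contr, LinearMap.sum_apply] using this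
  have hFy : ∀ y, F y = F v * f 0 y := by
    intro y
    have := hker (y - f 0 y • v) (by simp [hv1])
    simp at this
    linarith
  have h2 := h (Fin.cons (-F v) g) (by
    rw [Finset.sum_insert (by simp), Finset.sum_map]
    simp only [Fin.cons_zero, Fin.coe_succEmb, Fin.cons_succ]
    rw [← hF]
    ext y
    simp only [LinearMap.add_apply, LinearMap.smul_apply, smul_eq_mul, LinearMap.zero_apply]
    rw [hFy y]
    ring)
  intro i hi
  have := h2 i.succ (by
    refine Finset.mem_insert_of_mem ?_
    rw [Finset.mem_map]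
    exact ⟨i, hi, rfl⟩)
  simpa using this

end

/-- the number of cells for functionals in general position -/
theorem covN_le_cells : ∀ (n : ℕ) (m : ℕ) (V : Type) [AddCommGroup V] [Module ℝ V]
    [FiniteDimensional ℝ V] (f : Fin n → V →ₗ[ℝ] ℝ), finrank ℝ V = m →
    (∀ S : Finset (Fin n), S.card ≤ m → LinearIndepOn ℝ f (↑S : Set (Fin n))) →
    covN n m ≤ (cells f).card := by
  classical
  intro n
  induction n with
  | zero =>
    intro m V _ _ _ f _ _
    have h2 : cells f = univ := by
      ext σ
      rw [mem_cells]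
      simp only [Finset.mem_univ, iff_true]
      exact ⟨0, fun i => i.elim0⟩
    rw [h2]
    simp [covN]
  | succ n ih =>
    intro m V _ _ _ f hm hf
    rcases m with _ | m
    · simp [covN]
    have h0 : f 0 ≠ 0 := by
      have h := hf {0} (by simp)
      exact h.ne_zero (i := 0) (by simp)
    have hfr : finrank ℝ (LinearMap.ker (f 0)) = m := by
      have h1 := LinearMap.finrank_range_add_finrank_ker (f 0)
      have h2 : LinearMap.range (f 0) = ⊤ := LinearMap.range_eq_top.2
        (LinearMap.surjective (f := f 0) h0)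
      rw [h2, finrank_top, finrank_self] at h1
      omega
    have htail := ih (m + 1) V (fun i => f i.succ) hm (by
      intro S hS
      have h1 := hf (S.map (Fin.succEmb n)) (by rw [Finset.card_map]; exact hS)
      have h2 : LinearIndepOn ℝ (f ∘ Fin.succ) (↑S : Set (Fin n)) := by
        refine LinearIndepOn.comp_of_image ?_ (Fin.succ_injective n).injOn
        have h3 : (Fin.succ '' (↑S : Set (Fin n)) : Set (Fin (n + 1))) =
            ↑(S.map (Fin.succEmb n)) := by
          rw [Finset.coe_map]; rfl
        rw [h3]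
        exact h1
      exact h2)
    have hcon := ih m (LinearMap.ker (f 0)) (contr f) hfr (by
      intro S hS
      refine contr_indep f h0 S (hf _ ?_)
      refine (Finset.card_insert_le _ _).trans ?_
      rw [Finset.card_map]
      omega)
    have hl := lower_cells f h0
    rcases Nat.eq_zero_or_pos n with rfl | hn
    · have h1 : covN 1 (m + 1) = 2 := by
        simp only [covN]
        rw [Finset.sum_range_succ']
        simp
      have h2 : covN 0 (m + 1) = 1 := by simp [covN]
      have h3 : covN 0 m = 1 := by simp [covN]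
      rw [h2] at htail
      rw [h3] at hcon
      show covN 1 (m + 1) ≤ _
      omega
    · rw [covN_succ_succ _ _ (by omega)]
      omega

open Classical in
/-- restriction to an injective family of coordinates -/
theorem card_pull {T : Type} [Fintype T] {n : ℕ} (j : Fin n → T) (hj : Function.Injective j)
    (P : (Fin n → Bool) → Prop) :
    cnt (fun ω : T → Bool => P (ω ∘ j)) * 2 ^ n =
      (univ.filter P).card * Fintype.card (T → Bool) := by
  classical
  let e : (T → Bool) ≃ (Fin n → Bool) × ({x // x ∉ Set.range j} → Bool) :=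
    (Equiv.piEquivPiSubtypeProd (fun x => x ∈ Set.range j) (fun _ => Bool)).trans
      ((Equiv.arrowCongr (Equiv.ofInjective j hj).symm (Equiv.refl Bool)).prodCongr
        (Equiv.refl _))
  have he : ∀ ω : T → Bool, (e ω).1 = ω ∘ j := by
    intro ω
    funext i
    rfl
  have h1 : cnt (fun ω : T → Bool => P (ω ∘ j)) =
      (univ.filter P).card * Fintype.card ({x // x ∉ Set.range j} → Bool) := by
    rw [← Finset.card_univ, ← Finset.card_product]
    refine Finset.card_equiv e ?_
    intro ω
    rw [mem_ev, Finset.mem_product, Finset.mem_filter, he]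
    simp
  have h2 : Fintype.card (T → Bool) =
      2 ^ n * Fintype.card ({x // x ∉ Set.range j} → Bool) := by
    rw [Fintype.card_congr e, Fintype.card_prod]
    simp
  rw [h1, h2]
  ring

/-- the probability that random signs of `n` vectors in general position in dimension `m` lie in no
open half-space -/
noncomputable def pr (m n : ℕ) : ℝ := (∑ k ∈ Ico m n, ((n - 1).choose k : ℝ)) / 2 ^ (n - 1)

theorem pr_eq (m n : ℕ) (hn : n ≠ 0) : pr m n = 1 - (covN n m : ℝ) / 2 ^ n := by
  obtain ⟨k, rfl⟩ := Nat.exists_eq_succ_of_ne_zero hn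
  have h1 : (∑ i ∈ range m, ((k.choose i : ℕ) : ℝ)) + ∑ i ∈ Ico m (k + 1), (k.choose i : ℝ) =
      2 ^ k := by
    have h2 : ∑ i ∈ range (k + 1), ((k.choose i : ℕ) : ℝ) = 2 ^ k := by
      exact_mod_cast Nat.sum_range_choose k
    rcases le_total m (k + 1) with h | h
    · rw [← h2, Finset.range_eq_Ico, Finset.range_eq_Ico,
        Finset.sum_Ico_consecutive _ (Nat.zero_le m) h]
    · rw [Finset.Ico_eq_empty_of_le h, Finset.sum_empty, add_zero, ← h2]
      symm
      refine Finset.sum_subset (Finset.range_subset_range.2 h) ?_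
      intro i _ hi
      rw [Finset.mem_range, not_lt] at hi
      rw [Nat.choose_eq_zero_of_lt (by omega), Nat.cast_zero]
  simp only [pr, covN, Nat.succ_ne_zero, if_false, Nat.succ_eq_add_one, Nat.add_sub_cancel]
  push_cast
  have h3 : (2 : ℝ) ^ k ≠ 0 := by positivity
  have h4 : ∑ i ∈ Ico m (k + 1), (k.choose i : ℝ) = 2 ^ k - ∑ i ∈ range m, ((k.choose i : ℕ) : ℝ) := by
    linarith
  rw [h4, pow_succ]
  field_simp

open Classical in
/-- **Random signs.** -/
theorem signs {M : Type} [AddCommGroup M] [Module ℝ M] [FiniteDimensional ℝ M] {A T : Type}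
    [Fintype T] (t : Finset A) (ht : t.Nonempty) (o : A → T) (ho : Set.InjOn o (t : Set A)) (v : A → M)
    (hv : ∀ s ⊆ t, s.card ≤ finrank ℝ M → LinearIndepOn ℝ v (s : Set A)) :
    (cnt (fun ω : T → Bool => ¬ ∃ g : M →ₗ[ℝ] ℝ, ∀ a ∈ t, 0 < sg (ω (o a)) * g (v a)) : ℝ) ≤
      pr (finrank ℝ M) t.card * Fintype.card (T → Bool) := by
  classical
  let e : Fin t.card ≃ t := t.equivFin.symm
  let j : Fin t.card → T := fun i => o (e i).1
  have hj : Function.Injective j := by
    intro i i' h
    have h1 := ho (e i).2 (e i').2 h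
    exact e.injective (Subtype.ext h1)
  let f : Fin t.card → (Module.Dual ℝ M) →ₗ[ℝ] ℝ := fun i => Module.Dual.eval ℝ M (v (e i).1)
  have hf : ∀ S : Finset (Fin t.card), S.card ≤ finrank ℝ M →
      LinearIndepOn ℝ f (↑S : Set (Fin t.card)) := by
    intro S hS
    have h1 : LinearIndepOn ℝ v (↑(S.map (e.toEmbedding.trans
        (Function.Embedding.subtype _))) : Set A) := by
      refine hv _ ?_ (by rw [Finset.card_map]; exact hS)
      intro a ha
      rw [Finset.mem_map] at ha
      obtain ⟨i, _, rfl⟩ := ha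
      exact (e i).2
    have h2 : LinearIndepOn ℝ (v ∘ fun i => (e i).1) (↑S : Set (Fin t.card)) := by
      refine LinearIndepOn.comp_of_image ?_
        (fun i _ i' _ h => e.injective (Subtype.ext h))
      rw [Finset.coe_map] at h1
      exact h1
    have h3 := h2.map_injOn (Module.Dual.eval ℝ M)
      ((Module.eval_apply_injective ℝ (V := M)).injOn)
    exact h3
  have hc := covN_le_cells t.card (finrank ℝ M) (Module.Dual ℝ M) f
    (Subspace.dual_finrank_eq) hf
  have hP : cnt (fun ω : T → Bool => (ω ∘ j) ∉ cells f) * 2 ^ t.card =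
      (univ.filter fun σ : Fin t.card → Bool => σ ∉ cells f).card * Fintype.card (T → Bool) := by
    convert card_pull j hj (fun σ => σ ∉ cells f)
  have h1 : cnt (fun ω : T → Bool => ¬ ∃ g : M →ₗ[ℝ] ℝ, ∀ a ∈ t, 0 < sg (ω (o a)) * g (v a)) =
      cnt (fun ω : T → Bool => (ω ∘ j) ∉ cells f) := by
    unfold cnt ev
    congr 1
    ext ω
    simp only [Finset.mem_filter, Finset.mem_univ, true_and]
    rw [mem_cells, not_iff_not]
    constructor
    · rintro ⟨g, hg⟩
      exact ⟨g, fun i => hg _ (e i).2⟩
    · rintro ⟨g, hg⟩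
      refine ⟨g, fun a ha => ?_⟩
      have h2 := hg (e.symm ⟨a, ha⟩)
      simpa [j, f] using h2
  rw [h1]
  have h2 : (univ.filter fun σ : Fin t.card → Bool => σ ∉ cells f).card + (cells f).card =
      2 ^ t.card := by
    have h3 := Finset.card_compl_add_card (cells f)
    have h4 : (univ.filter fun σ : Fin t.card → Bool => σ ∉ cells f) = (cells f)ᶜ := by
      ext σ
      simp
    rw [h4, h3]
    simp
  have h3 : ((univ.filter fun σ : Fin t.card → Bool => σ ∉ cells f).card : ℝ) ≤
      2 ^ t.card - covN t.card (finrank ℝ M) := by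
    have h4 : ((univ.filter fun σ : Fin t.card → Bool => σ ∉ cells f).card : ℝ) +
        ((cells f).card : ℝ) = 2 ^ t.card := by exact_mod_cast h2
    have h5 : (covN t.card (finrank ℝ M) : ℝ) ≤ ((cells f).card : ℝ) := by exact_mod_cast hc
    linarith
  have hP' : (cnt (fun ω : T → Bool => (ω ∘ j) ∉ cells f) : ℝ) * 2 ^ t.card =
      ((univ.filter fun σ : Fin t.card → Bool => σ ∉ cells f).card : ℝ) *
        Fintype.card (T → Bool) := by exact_mod_cast hP
  have h6 : (0 : ℝ) < 2 ^ t.card := by positivity
  refine le_of_mul_le_mul_right ?_ h6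
  rw [hP', pr_eq _ _ (Finset.card_ne_zero.2 ht)]
  have h7 : (1 - (covN t.card (finrank ℝ M) : ℝ) / 2 ^ t.card) *
      (Fintype.card (T → Bool) : ℝ) * 2 ^ t.card =
      (2 ^ t.card - covN t.card (finrank ℝ M)) * (Fintype.card (T → Bool) : ℝ) := by
    field_simp
  rw [h7]
  exact mul_le_mul_of_nonneg_right h3 (Nat.cast_nonneg _)

end Pool.Agent.D0H26.RR
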