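import Pool.Agent.D0H26.SS.Rays
import Pool.Agent.D0H26.RR.Wen

/-!
# Equivariant rays with random signs (helper26)
-/

set_option autoImplicit false

namespace Pool.Agent.D0H26.RR

open Finset Module
open Pool.Agent.Helper93K9.Wendel (sg)
open Pool.Agent.Helper635.LLL (cnt)

section
variable {Γ A M : Type} [Group Γ] [MulAction Γ A] [AddCommGroup M] [Module ℝ M]

/-- representatives and generic vectors -/
theorem exists_generic [FiniteDimensional ℝ M]
    (ρ : Γ → M →ₗ[ℝ] M) (ρ1 : ∀ m, ρ 1 m = m) (ρmul : ∀ γ δ m, ρ (γ * δ) m = ρ γ (ρ δ m))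
    (ℳ : Finset (Finset A))
    (hreg : ∀ t ∈ ℳ, ∀ a ∈ t, ∀ b ∈ t, ∀ γ : Γ, γ • a = b → a = b)
    (hS : ∀ t ∈ ℳ, ∀ a ∈ t, ∀ γ : Γ, γ • a = a → ∃ c : ℝ, 0 < c ∧ ∀ m, ρ γ m = c • m) :
    ∃ u : A → M, (∀ (γ : Γ) a, ∃ c : ℝ, 0 < c ∧ ρ γ (u a) = c • u (γ • a)) ∧
      ∀ t ∈ ℳ, ∀ s ⊆ t, s.card ≤ finrank ℝ M → LinearIndepOn ℝ u (s : Set A) := by
  classical
  let rep : A → A := fun b => (Quotient.mk (MulAction.orbitRel Γ A) b).out
  have hrep : ∀ b, ∃ g : Γ, g • rep b = b := by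
    intro b
    have h1 : (MulAction.orbitRel Γ A) (rep b) b :=
      Quotient.exact (Quotient.out_eq (Quotient.mk (MulAction.orbitRel Γ A) b))
    rw [MulAction.orbitRel_apply] at h1
    obtain ⟨g, hg⟩ := h1
    refine ⟨g⁻¹, ?_⟩
    rw [← hg]
    exact inv_smul_smul g b
  choose g hg using hrep
  have hrep2 : ∀ (γ : Γ) b, rep (γ • b) = rep b := by
    intro γ b
    have h1 : (Quotient.mk (MulAction.orbitRel Γ A) (γ • b)) =
        Quotient.mk (MulAction.orbitRel Γ A) b :=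
      Quotient.sound (MulAction.orbitRel_apply.2 ⟨γ, rfl⟩)
    show (Quotient.mk (MulAction.orbitRel Γ A) (γ • b)).out = _
    rw [h1]
  let Ok : A → Prop := fun a => ∃ t ∈ ℳ, ∃ δ : Γ, δ • a ∈ t
  have hOk : ∀ (γ : Γ) a, Ok (γ • a) ↔ Ok a := by
    intro γ a
    constructor
    · rintro ⟨t, ht, δ, h⟩
      exact ⟨t, ht, δ * γ, by rwa [mul_smul]⟩
    · rintro ⟨t, ht, δ, h⟩
      exact ⟨t, ht, δ * γ⁻¹, by rwa [mul_smul, inv_smul_smul]⟩
  have hSok : ∀ a, Ok a → ∀ γ : Γ, γ • a = a → ∃ c : ℝ, 0 < c ∧ ∀ m, ρ γ m = c • m := by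
    rintro a ⟨t, ht, δ, hδ⟩ γ hγ
    obtain ⟨c, hc, h⟩ := hS t ht (δ • a) hδ (δ * γ * δ⁻¹) (by
      rw [mul_smul, mul_smul, inv_smul_smul, hγ])
    refine ⟨c, hc, fun m => ?_⟩
    have h1 : ρ δ⁻¹ (ρ (δ * γ * δ⁻¹) (ρ δ m)) = ρ γ m := by
      rw [← ρmul, ← ρmul]
      congr 1
      group
    rw [← h1, h, map_smul, ← ρmul, inv_mul_cancel, ρ1]
  let U : (A → M) → A → M := fun w a => if Ok a then ρ (g a) (w (rep a)) else 0
  have hU : ∀ w a, Ok a → U w a = ρ (g a) (w (rep a)) := fun w a h => if_pos h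
  have heq : ∀ (w : A → M) (γ : Γ) a, ∃ c : ℝ, 0 < c ∧ ρ γ (U w a) = c • U w (γ • a) := by
    intro w γ a
    by_cases ha : Ok a
    · obtain ⟨c, hc, h1⟩ := hSok (rep a) (by rw [← hOk (g a), hg]; exact ha)
        ((g (γ • a))⁻¹ * (γ * g a)) (by
          rw [mul_smul, mul_smul, hg a, inv_smul_eq_iff]
          conv_lhs => rw [← hg (γ • a)]
          rw [hrep2])
      refine ⟨c, hc, ?_⟩
      rw [hU w a ha, hU w (γ • a) ((hOk γ a).2 ha), hrep2, ← ρmul, ← map_smul, ← h1, ← ρmul,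
        mul_inv_cancel_left]
    · refine ⟨1, one_pos, ?_⟩
      have h1 : U w a = 0 := if_neg ha
      have h2 : U w (γ • a) = 0 := if_neg (by rwa [hOk])
      rw [h1, h2, map_zero, smul_zero]
  have hmemOk : ∀ t ∈ ℳ, ∀ a ∈ t, Ok a := fun t ht a ha => ⟨t, ht, 1, by rwa [one_smul]⟩
  have hrepinj : ∀ t ∈ ℳ, ∀ a ∈ t, ∀ b ∈ t, rep a = rep b → a = b := by
    intro t ht a ha b hb h
    refine hreg t ht a ha b hb (g b * (g a)⁻¹) ?_
    rw [mul_smul]
    have h1 : (g a)⁻¹ • a = rep a := inv_smul_eq_iff.2 (hg a).symm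
    rw [h1, h, hg]
  have key : ∀ P : Finset A, ∃ w : A → M, ∀ t ∈ ℳ, ∀ s ⊆ t, s.card ≤ finrank ℝ M →
      (∀ a ∈ s, rep a ∈ P) → LinearIndepOn ℝ (U w) (s : Set A) := by
    intro P
    induction P using Finset.induction_on with
    | empty =>
      refine ⟨0, fun t _ s _ _ h => ?_⟩
      have h1 : s = ∅ := Finset.eq_empty_of_forall_notMem fun a ha => absurd (h a ha) (Finset.notMem_empty _)
      rw [h1, Finset.coe_empty]
      exact linearIndepOn_empty ℝ _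
    | insert p P hp ih =>
      obtain ⟨w, hw⟩ := ih
      let J : Set (A × Finset A) := {q | q.1 ∈ ℳ.biUnion id ∧ q.2 ∈ ℳ.biUnion Finset.powerset ∧
        q.2.card < finrank ℝ M}
      have hJ : J.Finite := by
        refine Set.Finite.subset (((ℳ.biUnion id) ×ˢ (ℳ.biUnion Finset.powerset)).finite_toSet) ?_
        rintro ⟨a, s⟩ ⟨h1, h2, _⟩
        rw [Finset.mem_coe, Finset.mem_product]
        exact ⟨h1, h2⟩
      obtain ⟨x, _, hx⟩ := Pool.Agent.D0H26.SS.exists_avoid J hJ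
        (fun q => (Submodule.span ℝ (U w '' (q.2 : Set A))).map (ρ (g q.1)⁻¹)) (⊤ : Submodule ℝ M)
        (by
          rintro ⟨a, s⟩ ⟨_, _, h3⟩
          rw [finrank_top]
          refine lt_of_le_of_lt (Submodule.finrank_map_le _ _) (lt_of_le_of_lt ?_ h3)
          have h4 : Module.finrank ℝ (Submodule.span ℝ (U w '' (s : Set A))) ≤
              (s.image (U w)).card := by
            have := finrank_span_finset_le_card (R := ℝ) (s.image (U w))
            rwa [Finset.coe_image] at this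
          exact h4.trans Finset.card_image_le)
      refine ⟨Function.update w p x, ?_⟩
      have hne : ∀ a, rep a ≠ p → U (Function.update w p x) a = U w a := by
        intro a ha
        show (if Ok a then ρ (g a) (Function.update w p x (rep a)) else 0) =
          (if Ok a then ρ (g a) (w (rep a)) else 0)
        rw [Function.update_of_ne ha]
      intro t ht s hs hsc hsP
      by_cases hex : ∃ a ∈ s, rep a = p
      · obtain ⟨a, ha, hap⟩ := hex
        have hrest : ∀ b ∈ s.erase a, rep b ≠ p := by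
          intro b hb hbp
          rw [Finset.mem_erase] at hb
          exact hb.1 (hrepinj t ht b (hs hb.2) a (hs ha) (hbp.trans hap.symm))
        have hcard : (s.erase a).card < finrank ℝ M := by
          have := Finset.card_erase_lt_of_mem ha
          omega
        have h1 := hw t ht (s.erase a) ((Finset.erase_subset a s).trans hs) hcard.le (by
          intro b hb
          rcases Finset.mem_insert.1 (hsP b (Finset.mem_of_mem_erase hb)) with h | h
          · exact absurd h (hrest b hb)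
          · exact h)
        have h2 : LinearIndepOn ℝ (U (Function.update w p x)) ((s.erase a : Finset A) : Set A) :=
          h1.congr fun b hb => (hne b (hrest b hb)).symm
        have h3 : U (Function.update w p x) '' ((s.erase a : Finset A) : Set A) =
            U w '' ((s.erase a : Finset A) : Set A) :=
          Set.image_congr fun b hb => hne b (hrest b hb)
        have h4 : (s : Set A) = insert a ((s.erase a : Finset A) : Set A) := by
          rw [← Finset.coe_insert, Finset.insert_erase ha]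
        rw [h4, linearIndepOn_insert (by simp)]
        refine ⟨h2, ?_⟩
        rw [h3]
        intro hmem
        refine hx (a, s.erase a) ⟨?_, ?_, hcard⟩ ?_
        · exact Finset.mem_biUnion.2 ⟨t, ht, hs ha⟩
        · exact Finset.mem_biUnion.2 ⟨t, ht, Finset.mem_powerset.2
            ((Finset.erase_subset a s).trans hs)⟩
        · refine ⟨_, hmem, ?_⟩
          rw [hU _ a (hmemOk t ht a (hs ha)), hap, Function.update_self, ← ρmul, inv_mul_cancel, ρ1]
      · push Not at hex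
        have h1 := hw t ht s hs hsc (by
          intro a ha
          rcases Finset.mem_insert.1 (hsP a ha) with h | h
          · exact absurd h (hex a ha)
          · exact h)
        exact h1.congr fun b hb => (hne b (hex b hb)).symm
  obtain ⟨w, hw⟩ := key ((ℳ.biUnion id).image rep)
  refine ⟨U w, heq w, fun t ht s hs hc => hw t ht s hs hc fun a ha => ?_⟩
  exact Finset.mem_image_of_mem _ (Finset.mem_biUnion.2 ⟨t, ht, hs ha⟩)

open Classical in
/-- random signs for several families -/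
theorem exists_omega [FiniteDimensional ℝ M] {T : Type} [Fintype T]
    (ℳ : Finset (Finset A)) (hne : ∀ t ∈ ℳ, t.Nonempty) (o : A → T)
    (hinj : ∀ t ∈ ℳ, Set.InjOn o (t : Set A)) (u : A → M)
    (hu2 : ∀ t ∈ ℳ, ∀ s ⊆ t, s.card ≤ finrank ℝ M → LinearIndepOn ℝ u (s : Set A))
    (near : Finset A → Finset A → Prop)
    (hnear : ∀ t ∈ ℳ, ∀ t' ∈ ℳ, near t t' ↔ ∃ a ∈ t, ∃ b ∈ t', o a = o b)
    (hp : ∑ t ∈ ℳ, pr (finrank ℝ M) t.card < 1 ∨
      ∃ x : Finset A → ℝ, (∀ t ∈ ℳ, 0 ≤ x t ∧ x t < 1) ∧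
        ∀ t ∈ ℳ, pr (finrank ℝ M) t.card ≤
          x t * ∏ t' ∈ ℳ.filter (fun t' => t' ≠ t ∧ near t t'), (1 - x t')) :
    ∃ ω : T → Bool, ∀ t ∈ ℳ, ∃ f : M →ₗ[ℝ] ℝ, ∀ a ∈ t, 0 < sg (ω (o a)) * f (u a) := by
  let B : Finset A → (T → Bool) → Prop := fun t ω =>
    ¬ ∃ f : M →ₗ[ℝ] ℝ, ∀ a ∈ t, 0 < sg (ω (o a)) * f (u a)
  have hprob : ∀ t ∈ ℳ, (cnt (B t) : ℝ) ≤
      pr (finrank ℝ M) t.card * Fintype.card (T → Bool) := fun t ht =>
    signs t (hne t ht) o (hinj t ht) u (hu2 t ht)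
  have hcard : 0 < Fintype.card (T → Bool) := Fintype.card_pos
  have hω : ∃ ω : T → Bool, ∀ t ∈ ℳ, ¬ B t ω := by
    rcases hp with h1 | ⟨x, hx, hx2⟩
    · exact union_bound ℳ B (fun t => pr (finrank ℝ M) t.card) hprob h1 hcard
    · refine lll_weights ℳ B (fun t => t.image o) ?_ x (fun t ht => (hx t ht).1)
        (fun t ht => (hx t ht).2) ?_ hcard
      · intro t _ ω ω' h hb
        rintro ⟨f, hf⟩
        refine hb ⟨f, fun a ha => ?_⟩
        rw [h (o a) (Finset.mem_image_of_mem _ ha)]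
        exact hf a ha
      · intro t ht
        refine (hprob t ht).trans (mul_le_mul_of_nonneg_right
          ((hx2 t ht).trans (le_of_eq ?_)) (Nat.cast_nonneg _))
        congr 1
        refine Finset.prod_congr ?_ fun _ _ => rfl
        ext t'
        simp only [Finset.mem_filter]
        refine and_congr_right fun ht' => and_congr_right fun _ => ?_
        rw [Finset.not_disjoint_iff, hnear t ht t' ht']
        constructor
        · rintro ⟨a, ha, b, hb, hab⟩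
          exact ⟨o a, Finset.mem_image_of_mem _ ha, hab ▸ Finset.mem_image_of_mem _ hb⟩
        · rintro ⟨q, hq, hq'⟩
          rw [Finset.mem_image] at hq hq'
          obtain ⟨a, ha, rfl⟩ := hq
          obtain ⟨b, hb, hab⟩ := hq'
          exact ⟨a, ha, b, hb, hab.symm⟩
  obtain ⟨ω, hω⟩ := hω
  exact ⟨ω, fun t ht => not_not.1 (hω t ht)⟩

/-- two finite sets meet modulo the group -/
def Meets (Γ : Type) {A : Type} [Group Γ] [MulAction Γ A] (t t' : Finset A) : Prop :=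
  ∃ γ : Γ, ∃ a ∈ t, γ • a ∈ t'

open Classical in
/-- **Rays with random signs.** -/
theorem exists_signed [FiniteDimensional ℝ M]
    (ρ : Γ → M →ₗ[ℝ] M) (ρ1 : ∀ m, ρ 1 m = m) (ρmul : ∀ γ δ m, ρ (γ * δ) m = ρ γ (ρ δ m))
    (ℳ : Finset (Finset A)) (hne : ∀ t ∈ ℳ, t.Nonempty)
    (hreg : ∀ t ∈ ℳ, ∀ a ∈ t, ∀ b ∈ t, ∀ γ : Γ, γ • a = b → a = b)
    (hS : ∀ t ∈ ℳ, ∀ a ∈ t, ∀ γ : Γ, γ • a = a → ∃ c : ℝ, 0 < c ∧ ∀ m, ρ γ m = c • m)
    (hp : ∑ t ∈ ℳ, pr (finrank ℝ M) t.card < 1 ∨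
      ∃ x : Finset A → ℝ, (∀ t ∈ ℳ, 0 ≤ x t ∧ x t < 1) ∧
        ∀ t ∈ ℳ, pr (finrank ℝ M) t.card ≤
          x t * ∏ t' ∈ ℳ.filter (fun t' => t' ≠ t ∧ Meets Γ t t'), (1 - x t')) :
    ∃ v : A → M, (∀ (γ : Γ) a, ∃ c : ℝ, 0 < c ∧ ρ γ (v a) = c • v (γ • a)) ∧
      ∀ t ∈ ℳ, ∃ f : M →ₗ[ℝ] ℝ, ∀ a ∈ t, 0 < f (v a) := by
  obtain ⟨u, hu1, hu2⟩ := exists_generic ρ ρ1 ρmul ℳ hreg hS
  let mk : A → Quotient (MulAction.orbitRel Γ A) := fun a => Quotient.mk _ a
  have hmk : ∀ (γ : Γ) a, mk (γ • a) = mk a := fun γ a =>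
    Quotient.sound (MulAction.orbitRel_apply.2 ⟨γ, rfl⟩)
  have hmk2 : ∀ a b, mk a = mk b → ∃ γ : Γ, γ • a = b := by
    intro a b h
    have h1 : (MulAction.orbitRel Γ A) b a := Quotient.exact h.symm
    rw [MulAction.orbitRel_apply] at h1
    obtain ⟨γ, hγ⟩ := h1
    exact ⟨γ, hγ⟩
  let R : Finset (Quotient (MulAction.orbitRel Γ A)) := (ℳ.biUnion id).image mk
  by_cases hRne : R.Nonempty
  swap
  · refine ⟨u, hu1, fun t ht => ?_⟩
    obtain ⟨a, ha⟩ := hne t ht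
    exact absurd ⟨mk a, Finset.mem_image_of_mem _ (Finset.mem_biUnion.2 ⟨t, ht, ha⟩)⟩ hRne
  obtain ⟨q₀, hq₀⟩ := hRne
  let o : A → R := fun a => if h : mk a ∈ R then ⟨mk a, h⟩ else ⟨q₀, hq₀⟩
  have ho1 : ∀ t ∈ ℳ, ∀ a ∈ t, (o a).1 = mk a := by
    intro t ht a ha
    have h : mk a ∈ R := Finset.mem_image_of_mem _ (Finset.mem_biUnion.2 ⟨t, ht, ha⟩)
    show (if h : mk a ∈ R then (⟨mk a, h⟩ : R) else ⟨q₀, hq₀⟩).1 = mk a
    rw [dif_pos h]
  have ho2 : ∀ (γ : Γ) a, o (γ • a) = o a := by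
    intro γ a
    show (if h : mk (γ • a) ∈ R then (⟨mk (γ • a), h⟩ : R) else ⟨q₀, hq₀⟩) =
      (if h : mk a ∈ R then (⟨mk a, h⟩ : R) else ⟨q₀, hq₀⟩)
    simp only [hmk]
  have hinj : ∀ t ∈ ℳ, Set.InjOn o (t : Set A) := by
    intro t ht a ha b hb h
    have h1 : mk a = mk b := by rw [← ho1 t ht a ha, ← ho1 t ht b hb, h]
    obtain ⟨γ, hγ⟩ := hmk2 a b h1
    exact hreg t ht a ha b hb γ hγ
  have hω := exists_omega ℳ hne o hinj u hu2 (Meets Γ) (by
    intro t ht t' ht'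
    constructor
    · rintro ⟨γ, a, ha, ha'⟩
      exact ⟨a, ha, γ • a, ha', (ho2 γ a).symm⟩
    · rintro ⟨a, ha, b, hb, hab⟩
      have h1 : mk a = mk b := by rw [← ho1 t ht a ha, ← ho1 t' ht' b hb, hab]
      obtain ⟨γ, hγ⟩ := hmk2 a b h1
      exact ⟨γ, a, ha, hγ ▸ hb⟩) hp
  obtain ⟨ω, hω⟩ := hω
  refine ⟨fun a => sg (ω (o a)) • u a, ?_, ?_⟩
  · intro γ a
    obtain ⟨c, hc, h⟩ := hu1 γ a
    refine ⟨c, hc, ?_⟩
    show ρ γ (sg (ω (o a)) • u a) = c • (sg (ω (o (γ • a))) • u (γ • a))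
    rw [ho2, map_smul, h, smul_comm]
  · intro t ht
    obtain ⟨f, hf⟩ := hω t ht
    refine ⟨f, fun a ha => ?_⟩
    rw [map_smul, smul_eq_mul]
    exact hf a ha

end

end Pool.Agent.D0H26.RR
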