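import Pool.Agent.D0H26.SS.Main
import Pool.Agent.D0H26.RR.Gen

/-!
# Covers of closed affine manifolds and rays with random signs (helper26)
-/

set_option autoImplicit false

open Set Filter Topology

namespace Pool.Agent.D0H26.RR

open Pool.Agent.W689.Ch Pool.Agent.TH845.Mk Pool.Agent.Y150.Ch
open Pool.Agent.W689.Mk (lin hol_add hol_sub hol_inv_apply hol_apply_inv lin_inv_apply lin_mul
  lin_smul lin_neg hol_cont)
open Pool.Agent.R772.TT (tr exists_dual)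
open Pool.Agent.TH289.N (cl cl_apply)
open Pool.Agent.D0H13.CA (Rl nset_full)

section
variable {X Γ E : Type} [TopologicalSpace X] [T2Space X] [Group Γ] [MulAction Γ X]
  [NormedAddCommGroup E] [NormedSpace ℝ E] [FiniteDimensional ℝ E]
  {dev : X → E} {hol : Γ →* (E ≃ᵃ[ℝ] E)}

/-- the index sets of the points of an invariant open cover lie in translates of members of `ℳ` -/
structure Cov (X Γ : Type) {A : Type} [TopologicalSpace X] [Group Γ] [MulAction Γ X]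
    [MulAction Γ A] (U : A → Set X) (ℳ : Finset (Finset A)) : Prop where
  op : ∀ a, IsOpen (U a)
  inv : ∀ (γ : Γ) a x, x ∈ U a → γ • x ∈ U (γ • a)
  cov : ∀ x, (∃ a, x ∈ U a) ∧ ∃ t ∈ ℳ, ∃ γ : Γ, ∀ a, x ∈ U a → γ • a ∈ t

/-- rays -/
theorem sub_cover (D : AffMfd X Γ E dev hol)
    (hno : ¬ ∃ Z : X → E, Continuous Z ∧ (∀ (γ : Γ) x, Z (γ • x) = lin hol γ (Z x)) ∧
      ∀ x, Z x ≠ 0) {A : Type} [MulAction Γ A] {U : A → Set X} {ℳ : Finset (Finset A)}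
    (hU : Cov X Γ U ℳ) (N : Submodule ℝ E) (hN : ∀ (γ : Γ), ∀ v ∈ N, lin hol γ v ∈ N)
    (r : A → E) (hr : ∀ (γ : Γ) a, ∃ c : ℝ, 0 < c ∧ lin hol γ (r a) - c • r (γ • a) ∈ N)
    (hg : ∀ t ∈ ℳ, ∃ g : E →ₗ[ℝ] ℝ, (∀ v ∈ N, g v = 0) ∧ ∀ a ∈ t, 0 < g (r a)) : False := by
  obtain ⟨x, h0⟩ := nset_full D hno
    (Φ := fun x => {Z | ∃ a, x ∈ U a ∧ ∃ v : E, (∃ c : ℝ, 0 < c ∧ v - c • r a ∈ N) ∧
      Z = fun _ => v}) (by
      intro x
      obtain ⟨⟨a, ha⟩, _⟩ := hU.cov x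
      exact ⟨_, a, ha, r a, ⟨1, one_pos, by rw [one_smul, sub_self]; exact N.zero_mem⟩, rfl⟩) (by
      rintro x Z ⟨a, _, v, _, rfl⟩
      exact continuous_const) (by
      rintro γ x Z ⟨a, ha, v, ⟨c, hc, hv⟩, rfl⟩
      refine ⟨γ⁻¹ • a, ?_, lin hol γ⁻¹ v, ?_, rfl⟩
      · have h1 := hU.inv γ⁻¹ a _ ha
        rwa [inv_smul_smul] at h1
      · obtain ⟨c', hc', h1⟩ := hr γ⁻¹ a
        refine ⟨c * c', mul_pos hc hc', ?_⟩
        have h2 := hN γ⁻¹ _ hv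
        have h3 : lin hol γ⁻¹ (v - c • r a) = lin hol γ⁻¹ v - c • lin hol γ⁻¹ (r a) := by
          show (hol γ⁻¹).linear (v - c • r a) = _
          rw [map_sub, map_smul]
        rw [h3] at h2
        have h4 := N.add_mem h2 (N.smul_mem c h1)
        have h5 : lin hol γ⁻¹ v - c • lin hol γ⁻¹ (r a) +
            c • (lin hol γ⁻¹ (r a) - c' • r (γ⁻¹ • a)) =
            lin hol γ⁻¹ v - (c * c') • r (γ⁻¹ • a) := by
          rw [smul_sub, smul_smul]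
          abel
        rwa [h5] at h4) (by
      rintro x Z ⟨a, ha, v, hv, rfl⟩
      filter_upwards [(hU.op a).mem_nhds ha] with y hy
      exact ⟨a, hy, v, hv, rfl⟩)
  obtain ⟨_, t, ht, γ, hγ⟩ := hU.cov x
  obtain ⟨g, hg1, hg2⟩ := hg t ht
  have hlin : IsLinearMap ℝ (fun w : E => g (lin hol γ w)) :=
    (g ∘ₗ ((hol γ).linear : E →ₗ[ℝ] E)).isLinear
  have h1 : convexHull ℝ {w : E | ∃ Z ∈ {Z : X → E | ∃ a, x ∈ U a ∧ ∃ v : E,
      (∃ c : ℝ, 0 < c ∧ v - c • r a ∈ N) ∧ Z = fun _ => v}, w = Z x} ⊆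
      {w : E | 0 < g (lin hol γ w)} := by
    refine convexHull_min ?_ (convex_halfSpace_gt hlin 0)
    rintro w ⟨Z, ⟨a, ha, v, ⟨c, hc, hv⟩, hZ⟩, hw⟩
    have hwv : w = v := by rw [hw, hZ]
    obtain ⟨c', hc', h2⟩ := hr γ a
    have h3 := hg1 _ (hN γ _ hv)
    have h4 := hg1 _ h2
    have h5 : g (lin hol γ (v - c • r a)) = g (lin hol γ v) - c * g (lin hol γ (r a)) := by
      rw [hlin.map_sub, hlin.map_smul, smul_eq_mul]
    rw [h5] at h3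
    rw [map_sub, map_smul, smul_eq_mul] at h4
    have h6 := hg2 _ (hγ a ha)
    show 0 < g (lin hol γ w)
    rw [hwv]
    have h7 : g (lin hol γ v) = c * (c' * g (r (γ • a))) := by
      rw [sub_eq_zero.1 h3, sub_eq_zero.1 h4]
    rw [h7]
    positivity
  have h2 : (0 : ℝ) < g (lin hol γ 0) := h1 h0
  rw [hlin.map_zero] at h2
  exact lt_irrefl _ h2

/-- half-spaces -/
theorem quot_cover (D : AffMfd X Γ E dev hol)
    (hno : ¬ ∃ Z : X → E, Continuous Z ∧ (∀ (γ : Γ) x, Z (γ • x) = lin hol γ (Z x)) ∧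
      ∀ x, Z x ≠ 0) {A : Type} [MulAction Γ A] {U : A → Set X} {ℳ : Finset (Finset A)}
    (hU : Cov X Γ U ℳ) (N : Submodule ℝ E) (hN : ∀ (γ : Γ), ∀ v ∈ N, lin hol γ v ∈ N)
    (l : A → E →ₗ[ℝ] ℝ)
    (hl : ∀ (γ : Γ) a, ∃ c : ℝ, 0 < c ∧ ∀ v ∈ N, l a v = c * l (γ • a) (lin hol γ v))
    (hg : ∀ t ∈ ℳ, ∃ v ∈ N, ∀ a ∈ t, 0 < l a v) : False := by
  obtain ⟨B, hB1, hB2, hB3⟩ := exists_dual D
  obtain ⟨x, h0⟩ := nset_full D hno
    (Φ := fun x => {Z | ∃ a, x ∈ U a ∧ ∃ m : E →L[ℝ] ℝ,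
      (∃ c : ℝ, 0 < c ∧ ∀ v ∈ N, m v = c * l a v) ∧ Z = fun y => B y m}) (by
      intro x
      obtain ⟨⟨a, ha⟩, _⟩ := hU.cov x
      exact ⟨_, a, ha, LinearMap.toContinuousLinearMap (l a),
        ⟨1, one_pos, fun v _ => by rw [one_mul]; rfl⟩, rfl⟩) (by
      rintro x Z ⟨a, _, m, _, rfl⟩
      exact hB1 m) (by
      rintro γ x Z ⟨a, ha, m, ⟨c, hc, hm⟩, rfl⟩
      refine ⟨γ⁻¹ • a, ?_, m.comp (cl hol γ), ?_, ?_⟩
      · have h1 := hU.inv γ⁻¹ a _ ha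
        rwa [inv_smul_smul] at h1
      · obtain ⟨c', hc', h1⟩ := hl γ (γ⁻¹ • a)
        refine ⟨c / c', div_pos hc hc', fun v hv => ?_⟩
        have h2 := h1 v hv
        rw [smul_inv_smul] at h2
        show m (cl hol γ v) = c / c' * l (γ⁻¹ • a) v
        rw [h2]
        have h3 : m (cl hol γ v) = c * l a (lin hol γ v) := hm _ (hN γ v hv)
        rw [h3]
        field_simp
      · funext y
        show lin hol γ⁻¹ (B (γ • y) m) = B y (m.comp (cl hol γ))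
        rw [hB3, lin_inv_apply]) (by
      rintro x Z ⟨a, ha, m, hm, rfl⟩
      filter_upwards [(hU.op a).mem_nhds ha] with y hy
      exact ⟨a, hy, m, hm, rfl⟩)
  obtain ⟨_, t, ht, γ, hγ⟩ := hU.cov x
  obtain ⟨v, hvN, hv⟩ := hg t ht
  have hw : ∀ a, x ∈ U a → 0 < l a (lin hol γ⁻¹ v) := by
    intro a ha
    obtain ⟨c, hc, h⟩ := hl γ a
    rw [h _ (hN γ⁻¹ v hvN)]
    have h1 : lin hol γ (lin hol γ⁻¹ v) = v := by
      have h2 := lin_inv_apply (hol := hol) γ⁻¹ v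
      rwa [inv_inv] at h2
    rw [h1]
    exact mul_pos hc (hv _ (hγ a ha))
  have h1 : convexHull ℝ {w : E | ∃ Z ∈ {Z : X → E | ∃ a, x ∈ U a ∧ ∃ m : E →L[ℝ] ℝ,
      (∃ c : ℝ, 0 < c ∧ ∀ v ∈ N, m v = c * l a v) ∧ Z = fun y => B y m}, w = Z x} ⊆
      {w : E | ∃ m : E →L[ℝ] ℝ, 0 < m (lin hol γ⁻¹ v) ∧ w = B x m} := by
    refine convexHull_min ?_ ?_
    · rintro w ⟨Z, ⟨a, ha, m, ⟨c, hc, hm⟩, hZ⟩, hw'⟩
      refine ⟨m, ?_, by rw [hw', hZ]⟩
      rw [hm _ (hN γ⁻¹ v hvN)]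
      exact mul_pos hc (hw a ha)
    · rintro _ ⟨m, hm, rfl⟩ _ ⟨m', hm', rfl⟩ a b ha hb hab
      refine ⟨a • m + b • m', ?_, ?_⟩
      · show 0 < a * m (lin hol γ⁻¹ v) + b * m' (lin hol γ⁻¹ v)
        rcases ha.eq_or_lt with h | h
        · rw [← h] at hab ⊢
          rw [zero_add] at hab
          rw [hab]
          linarith
        · have := mul_pos h hm
          have := mul_nonneg hb hm'.le
          linarith
      · rw [map_add, map_smul, map_smul]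
  obtain ⟨m, hm, h2⟩ := h1 h0
  by_cases hm0 : m = 0
  · rw [hm0] at hm
    exact lt_irrefl _ hm
  · have h3 := hB2 x m hm0
    rw [← h2, map_zero] at h3
    exact lt_irrefl _ h3

open Classical in
/-- the condition of the union bound or of the local lemma -/
def Small (Γ : Type) {A : Type} [Group Γ] [MulAction Γ A] (ℳ : Finset (Finset A)) (m : ℕ) : Prop :=
  ∑ t ∈ ℳ, pr m t.card < 1 ∨
    ∃ x : Finset A → ℝ, (∀ t ∈ ℳ, 0 ≤ x t ∧ x t < 1) ∧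
      ∀ t ∈ ℳ, pr m t.card ≤ x t * ∏ t' ∈ ℳ.filter (fun t' => t' ≠ t ∧ Meets Γ t t'), (1 - x t')

/-- **Covers with small probabilities: quotients.** -/
theorem sub_random (D : AffMfd X Γ E dev hol)
    (hno : ¬ ∃ Z : X → E, Continuous Z ∧ (∀ (γ : Γ) x, Z (γ • x) = lin hol γ (Z x)) ∧
      ∀ x, Z x ≠ 0) {A : Type} [MulAction Γ A] {U : A → Set X} {ℳ : Finset (Finset A)}
    (hU : Cov X Γ U ℳ) (hne : ∀ t ∈ ℳ, t.Nonempty)
    (hreg : ∀ t ∈ ℳ, ∀ a ∈ t, ∀ b ∈ t, ∀ γ : Γ, γ • a = b → a = b)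
    (N : Submodule ℝ E) (hN : ∀ (γ : Γ), ∀ v ∈ N, lin hol γ v ∈ N)
    (hS : ∀ t ∈ ℳ, ∀ a ∈ t, ∀ γ : Γ, γ • a = a →
      ∃ c : ℝ, 0 < c ∧ ∀ v, lin hol γ v - c • v ∈ N)
    (hs : Small Γ ℳ (Module.finrank ℝ (E ⧸ N))) : False := by
  have hNc : ∀ γ : Γ, N ≤ N.comap ((hol γ).linear : E →ₗ[ℝ] E) := fun γ v hv => hN γ v hv
  obtain ⟨v, hv1, hv2⟩ := exists_signed (M := E ⧸ N)
    (fun γ : Γ => N.mapQ N ((hol γ).linear : E →ₗ[ℝ] E) (hNc γ))
    (by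
      intro m
      obtain ⟨v, rfl⟩ := N.mkQ_surjective m
      show N.mkQ (lin hol 1 v) = N.mkQ v
      rw [show lin hol 1 v = v by
        show (hol 1).linear v = v
        rw [map_one]; rfl])
    (by
      intro γ δ m
      obtain ⟨v, rfl⟩ := N.mkQ_surjective m
      show N.mkQ (lin hol (γ * δ) v) = N.mkQ (lin hol γ (lin hol δ v))
      rw [lin_mul])
    ℳ hne hreg
    (by
      intro t ht a ha γ hγ
      obtain ⟨c, hc, h⟩ := hS t ht a ha γ hγ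
      refine ⟨c, hc, ?_⟩
      intro m
      obtain ⟨v, rfl⟩ := N.mkQ_surjective m
      show N.mkQ (lin hol γ v) = c • N.mkQ v
      rw [← map_smul, ← sub_eq_zero, ← map_sub, Submodule.mkQ_apply,
        Submodule.Quotient.mk_eq_zero]
      exact h v) hs
  choose r hr using fun a => N.mkQ_surjective (v a)
  refine sub_cover D hno hU N hN r ?_ ?_
  · intro γ a
    obtain ⟨c, hc, h⟩ := hv1 γ a
    refine ⟨c, hc, ?_⟩
    have h1 : N.mkQ (lin hol γ (r a)) = c • N.mkQ (r (γ • a)) := by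
      rw [hr (γ • a), ← h, ← hr a]
      rfl
    rw [← Submodule.Quotient.mk_eq_zero, ← Submodule.mkQ_apply, map_sub, map_smul, h1, sub_self]
  · intro t ht
    obtain ⟨f, hf⟩ := hv2 t ht
    refine ⟨f ∘ₗ N.mkQ, ?_, ?_⟩
    · intro v hv
      show f (N.mkQ v) = 0
      rw [(Submodule.Quotient.mk_eq_zero N).2 hv |> fun h => (show N.mkQ v = 0 from h), map_zero]
    · intro a ha
      show 0 < f (N.mkQ (r a))
      rw [hr a]
      exact hf a ha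

/-- **Covers with small probabilities: subspaces.** -/
theorem quot_random (D : AffMfd X Γ E dev hol)
    (hno : ¬ ∃ Z : X → E, Continuous Z ∧ (∀ (γ : Γ) x, Z (γ • x) = lin hol γ (Z x)) ∧
      ∀ x, Z x ≠ 0) {A : Type} [MulAction Γ A] {U : A → Set X} {ℳ : Finset (Finset A)}
    (hU : Cov X Γ U ℳ) (hne : ∀ t ∈ ℳ, t.Nonempty)
    (hreg : ∀ t ∈ ℳ, ∀ a ∈ t, ∀ b ∈ t, ∀ γ : Γ, γ • a = b → a = b)
    (N : Submodule ℝ E) (hN : ∀ (γ : Γ), ∀ v ∈ N, lin hol γ v ∈ N)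
    (hS : ∀ t ∈ ℳ, ∀ a ∈ t, ∀ γ : Γ, γ • a = a →
      ∃ c : ℝ, 0 < c ∧ ∀ v ∈ N, lin hol γ v = c • v)
    (hs : Small Γ ℳ (Module.finrank ℝ N)) : False := by
  let r : Γ → N →ₗ[ℝ] N := fun γ => ((hol γ).linear : E →ₗ[ℝ] E).restrict (hN γ)
  have hr : ∀ γ (v : N), ((r γ v : N) : E) = lin hol γ v.1 := fun γ v => rfl
  have hrr : ∀ γ (v : N), r γ (r γ⁻¹ v) = v := by
    intro γ v
    apply Subtype.ext
    rw [hr, hr]
    have h2 := lin_inv_apply (hol := hol) γ⁻¹ v.1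
    rwa [inv_inv] at h2
  have hrr' : ∀ γ (v : N), r γ⁻¹ (r γ v) = v := by
    intro γ v
    apply Subtype.ext
    rw [hr, hr]
    exact lin_inv_apply (hol := hol) γ v.1
  have hdim : Module.finrank ℝ (Module.Dual ℝ N) = Module.finrank ℝ N := Subspace.dual_finrank_eq
  obtain ⟨v, hv1, hv2⟩ := exists_signed (M := Module.Dual ℝ N)
    (fun γ : Γ => (r γ⁻¹).dualMap)
    (by
      intro m
      ext v
      show m (r 1⁻¹ v) = m v
      congr 1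
      apply Subtype.ext
      rw [hr, inv_one]
      show (hol 1).linear v.1 = v.1
      rw [map_one]; rfl)
    (by
      intro γ δ m
      ext v
      show m (r (γ * δ)⁻¹ v) = m (r δ⁻¹ (r γ⁻¹ v))
      congr 1
      apply Subtype.ext
      rw [hr, hr, hr, mul_inv_rev, lin_mul])
    ℳ hne hreg
    (by
      intro t ht a ha γ hγ
      obtain ⟨c, hc, h⟩ := hS t ht a ha γ hγ
      refine ⟨c⁻¹, inv_pos.2 hc, ?_⟩
      intro m
      ext v
      show m (r γ⁻¹ v) = c⁻¹ * m v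
      have h2 : r γ (r γ⁻¹ v) = c • r γ⁻¹ v := Subtype.ext (h _ (r γ⁻¹ v).2)
      rw [hrr] at h2
      have h3 : m v = c * m (r γ⁻¹ v) := by
        conv_lhs => rw [h2]
        rw [map_smul, smul_eq_mul]
      rw [h3, inv_mul_cancel_left₀ hc.ne'])
    (by rw [hdim]; exact hs)
  choose l hl using fun a => LinearMap.exists_extend (v a)
  have hlv : ∀ a (w : N), l a w.1 = v a w := fun a w => by
    rw [← hl a]
    rfl
  refine quot_cover D hno hU N hN l ?_ ?_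
  · intro γ a
    obtain ⟨c, hc, h⟩ := hv1 γ a
    refine ⟨c, hc, ?_⟩
    intro w hw
    have h1 : l a w = v a ⟨w, hw⟩ := hlv a ⟨w, hw⟩
    have h2 : l (γ • a) (lin hol γ w) = v (γ • a) (r γ ⟨w, hw⟩) := hlv (γ • a) (r γ ⟨w, hw⟩)
    rw [h1, h2]
    have h3 := LinearMap.congr_fun h (r γ ⟨w, hw⟩)
    have h4 : v a (r γ⁻¹ (r γ ⟨w, hw⟩)) = c * v (γ • a) (r γ ⟨w, hw⟩) := h3
    rwa [hrr'] at h4
  · intro t ht
    obtain ⟨g, hg⟩ := hv2 t ht
    obtain ⟨w, hw⟩ := (Module.evalEquiv ℝ N).surjective g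
    refine ⟨w.1, w.2, fun a ha => ?_⟩
    rw [hlv]
    have h1 := hg a ha
    rw [← hw] at h1
    exact h1

end

end Pool.Agent.D0H26.RR
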