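import Pool.Agent.D0H26.RR.Main
import Pool.Agent.D0H26.RR.Gen2
import Pool.Agent.D0H26.RR.Fin

/-!
# Covers of closed affine manifolds, rays with random signs, finite coverings (helper26)
-/

set_option autoImplicit false

open Set Filter Topology

namespace Pool.Agent.D0H26.RR

open Pool.Agent.W689.Ch Pool.Agent.TH845.Mk Pool.Agent.Y150.Ch
open Pool.Agent.W689.Mk (lin hol_add hol_sub hol_inv_apply hol_apply_inv lin_inv_apply lin_mul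
  lin_smul lin_neg hol_cont)

section
variable {X Γ E : Type} [TopologicalSpace X] [T2Space X] [Group Γ] [MulAction Γ X]
  [NormedAddCommGroup E] [NormedSpace ℝ E] [FiniteDimensional ℝ E]
  {dev : X → E} {hol : Γ →* (E ≃ᵃ[ℝ] E)}

omit [FiniteDimensional ℝ E] in
/-- the representation on the quotient -/
theorem rho_quot (hol : Γ →* (E ≃ᵃ[ℝ] E)) (N : Submodule ℝ E)
    (hN : ∀ (γ : Γ), ∀ v ∈ N, lin hol γ v ∈ N) :
    ∃ ρ : Γ → (E ⧸ N) →ₗ[ℝ] (E ⧸ N), (∀ m, ρ 1 m = m) ∧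
      (∀ γ δ m, ρ (γ * δ) m = ρ γ (ρ δ m)) ∧
      (∀ γ v, ρ γ (N.mkQ v) = N.mkQ (lin hol γ v)) ∧
      ∀ γ, PS ρ γ ↔ ∃ c : ℝ, 0 < c ∧ ∀ v, lin hol γ v - c • v ∈ N := by
  have hNc : ∀ γ : Γ, N ≤ N.comap ((hol γ).linear : E →ₗ[ℝ] E) := fun γ v hv => hN γ v hv
  refine ⟨fun γ : Γ => N.mapQ N ((hol γ).linear : E →ₗ[ℝ] E) (hNc γ), ?_, ?_, fun γ v => rfl, ?_⟩
  · intro m
    obtain ⟨v, rfl⟩ := N.mkQ_surjective m
    show N.mkQ (lin hol 1 v) = N.mkQ v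
    rw [show lin hol 1 v = v by
      show (hol 1).linear v = v
      rw [map_one]; rfl]
  · intro γ δ m
    obtain ⟨v, rfl⟩ := N.mkQ_surjective m
    show N.mkQ (lin hol (γ * δ) v) = N.mkQ (lin hol γ (lin hol δ v))
    rw [lin_mul]
  · intro γ
    constructor
    · rintro ⟨c, hc, h⟩
      refine ⟨c, hc, fun v => ?_⟩
      have h1 : N.mkQ (lin hol γ v) = c • N.mkQ v := h (N.mkQ v)
      rw [← Submodule.Quotient.mk_eq_zero, ← Submodule.mkQ_apply, map_sub, map_smul, h1, sub_self]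
    · rintro ⟨c, hc, h⟩
      refine ⟨c, hc, fun m => ?_⟩
      obtain ⟨v, rfl⟩ := N.mkQ_surjective m
      show N.mkQ (lin hol γ v) = c • N.mkQ v
      rw [← map_smul, ← sub_eq_zero, ← map_sub, Submodule.mkQ_apply,
        Submodule.Quotient.mk_eq_zero]
      exact h v

omit [FiniteDimensional ℝ E] in
/-- the representation on the subspace -/
theorem rho_sub (hol : Γ →* (E ≃ᵃ[ℝ] E)) (N : Submodule ℝ E)
    (hN : ∀ (γ : Γ), ∀ v ∈ N, lin hol γ v ∈ N) :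
    ∃ ρ : Γ → N →ₗ[ℝ] N, (∀ m, ρ 1 m = m) ∧
      (∀ γ δ m, ρ (γ * δ) m = ρ γ (ρ δ m)) ∧
      ∀ γ, PS ρ γ ↔ ∃ c : ℝ, 0 < c ∧ ∀ v ∈ N, lin hol γ v = c • v := by
  refine ⟨fun γ => ((hol γ).linear : E →ₗ[ℝ] E).restrict (hN γ), ?_, ?_, ?_⟩
  · intro v
    apply Subtype.ext
    show (hol 1).linear v.1 = v.1
    rw [map_one]; rfl
  · intro γ δ v
    apply Subtype.ext
    show lin hol (γ * δ) v.1 = lin hol γ (lin hol δ v.1)
    rw [lin_mul]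
  · intro γ
    constructor
    · rintro ⟨c, hc, h⟩
      exact ⟨c, hc, fun v hv => congrArg Subtype.val (h ⟨v, hv⟩)⟩
    · rintro ⟨c, hc, h⟩
      exact ⟨c, hc, fun v => Subtype.ext (h v.1 v.2)⟩

/-- **Covers with small probabilities: quotients.** -/
theorem sub_random2 (D : AffMfd X Γ E dev hol)
    (hno : ¬ ∃ Z : X → E, Continuous Z ∧ (∀ (γ : Γ) x, Z (γ • x) = lin hol γ (Z x)) ∧
      ∀ x, Z x ≠ 0) {A : Type} [MulAction Γ A] {U : A → Set X} {ℳ : Finset (Finset A)}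
    (hU : Cov X Γ U ℳ) (hne : ∀ t ∈ ℳ, t.Nonempty)
    (N : Submodule ℝ E) (hN : ∀ (γ : Γ), ∀ v ∈ N, lin hol γ v ∈ N)
    (hreg : ∀ t ∈ ℳ, ∀ a ∈ t, ∀ b ∈ t, ∀ γ : Γ, γ • a = b →
      ∃ c : ℝ, 0 < c ∧ ∀ v, lin hol γ v - c • v ∈ N)
    (hs : Small Γ ℳ (Module.finrank ℝ (E ⧸ N))) : False := by
  obtain ⟨ρ, ρ1, ρmul, ρmk, ρS⟩ := rho_quot hol N hN
  obtain ⟨v, hv1, hv2⟩ := exists_signed2 (M := E ⧸ N) ρ ρ1 ρmul ℳ hne
    (fun t ht a ha b hb γ hγ => (ρS γ).2 (hreg t ht a ha b hb γ hγ)) hs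
  choose r hr using fun a => N.mkQ_surjective (v a)
  refine sub_cover D hno hU N hN r ?_ ?_
  · intro γ a
    obtain ⟨c, hc, h⟩ := hv1 γ a
    refine ⟨c, hc, ?_⟩
    have h1 : N.mkQ (lin hol γ (r a)) = c • N.mkQ (r (γ • a)) := by
      rw [hr (γ • a), ← h, ← hr a, ρmk]
    rw [← Submodule.Quotient.mk_eq_zero, ← Submodule.mkQ_apply, map_sub, map_smul, h1, sub_self]
  · intro t ht
    obtain ⟨f, hf⟩ := hv2 t ht
    refine ⟨f ∘ₗ N.mkQ, ?_, ?_⟩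
    · intro v hv
      show f (N.mkQ v) = 0
      rw [(Submodule.Quotient.mk_eq_zero N).2 hv |> fun h => (show N.mkQ v = 0 from h), map_zero]
    · intro a ha
      show 0 < f (N.mkQ (r a))
      rw [hr a]
      exact hf a ha

/-- **Covers with small probabilities: subspaces.** -/
theorem quot_random2 (D : AffMfd X Γ E dev hol)
    (hno : ¬ ∃ Z : X → E, Continuous Z ∧ (∀ (γ : Γ) x, Z (γ • x) = lin hol γ (Z x)) ∧
      ∀ x, Z x ≠ 0) {A : Type} [MulAction Γ A] {U : A → Set X} {ℳ : Finset (Finset A)}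
    (hU : Cov X Γ U ℳ) (hne : ∀ t ∈ ℳ, t.Nonempty)
    (N : Submodule ℝ E) (hN : ∀ (γ : Γ), ∀ v ∈ N, lin hol γ v ∈ N)
    (hreg : ∀ t ∈ ℳ, ∀ a ∈ t, ∀ b ∈ t, ∀ γ : Γ, γ • a = b →
      ∃ c : ℝ, 0 < c ∧ ∀ v ∈ N, lin hol γ v = c • v)
    (hs : Small Γ ℳ (Module.finrank ℝ N)) : False := by
  let r : Γ → N →ₗ[ℝ] N := fun γ => ((hol γ).linear : E →ₗ[ℝ] E).restrict (hN γ)
  have hr : ∀ γ (v : N), ((r γ v : N) : E) = lin hol γ v.1 := fun γ v => rfl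
  have hrr : ∀ γ (v : N), r γ (r γ⁻¹ v) = v := by
    intro γ v
    apply Subtype.ext
    rw [hr, hr]
    have h2 := lin_inv_apply (hol := hol) γ⁻¹ v.1
    rwa [inv_inv] at h2
  have hrr' : ∀ γ (v : N), r γ⁻¹ (r γ v) = v := by
    intro γ v
    apply Subtype.ext
    rw [hr, hr]
    exact lin_inv_apply (hol := hol) γ v.1
  have hdim : Module.finrank ℝ (Module.Dual ℝ N) = Module.finrank ℝ N := Subspace.dual_finrank_eq
  obtain ⟨v, hv1, hv2⟩ := exists_signed2 (M := Module.Dual ℝ N)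
    (fun γ : Γ => (r γ⁻¹).dualMap)
    (by
      intro m
      ext v
      show m (r 1⁻¹ v) = m v
      congr 1
      apply Subtype.ext
      rw [hr, inv_one]
      show (hol 1).linear v.1 = v.1
      rw [map_one]; rfl)
    (by
      intro γ δ m
      ext v
      show m (r (γ * δ)⁻¹ v) = m (r δ⁻¹ (r γ⁻¹ v))
      congr 1
      apply Subtype.ext
      rw [hr, hr, hr, mul_inv_rev, lin_mul])
    ℳ hne
    (by
      intro t ht a ha b hb γ hγ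
      obtain ⟨c, hc, h⟩ := hreg t ht a ha b hb γ hγ
      refine ⟨c⁻¹, inv_pos.2 hc, ?_⟩
      intro m
      ext v
      show m (r γ⁻¹ v) = c⁻¹ * m v
      have h2 : r γ (r γ⁻¹ v) = c • r γ⁻¹ v := Subtype.ext (h _ (r γ⁻¹ v).2)
      rw [hrr] at h2
      have h3 : m v = c * m (r γ⁻¹ v) := by
        conv_lhs => rw [h2]
        rw [map_smul, smul_eq_mul]
      rw [h3, inv_mul_cancel_left₀ hc.ne'])
    (by rw [hdim]; exact hs)
  choose l hl using fun a => LinearMap.exists_extend (v a)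
  have hlv : ∀ a (w : N), l a w.1 = v a w := fun a w => by
    rw [← hl a]
    rfl
  refine quot_cover D hno hU N hN l ?_ ?_
  · intro γ a
    obtain ⟨c, hc, h⟩ := hv1 γ a
    refine ⟨c, hc, ?_⟩
    intro w hw
    have h1 : l a w = v a ⟨w, hw⟩ := hlv a ⟨w, hw⟩
    have h2 : l (γ • a) (lin hol γ w) = v (γ • a) (r γ ⟨w, hw⟩) := hlv (γ • a) (r γ ⟨w, hw⟩)
    rw [h1, h2]
    have h3 := LinearMap.congr_fun h (r γ ⟨w, hw⟩)
    have h4 : v a (r γ⁻¹ (r γ ⟨w, hw⟩)) = c * v (γ • a) (r γ ⟨w, hw⟩) := h3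
    rwa [hrr'] at h4
  · intro t ht
    obtain ⟨g, hg⟩ := hv2 t ht
    obtain ⟨w, hw⟩ := (Module.evalEquiv ℝ N).surjective g
    refine ⟨w.1, w.2, fun a ha => ?_⟩
    rw [hlv]
    have h1 := hg a ha
    rw [← hw] at h1
    exact h1

end

section
variable {Γ A M : Type} [Group Γ] [MulAction Γ A] [AddCommGroup M] [Module ℝ M]
  [FiniteDimensional ℝ M]

omit [FiniteDimensional ℝ M] in
theorem ps_conj (ρ : Γ → M →ₗ[ℝ] M) (ρ1 : ∀ m, ρ 1 m = m)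
    (ρmul : ∀ γ δ m, ρ (γ * δ) m = ρ γ (ρ δ m)) {γ δ : Γ} (h : PS ρ (δ * γ * δ⁻¹)) :
    PS ρ γ := by
  obtain ⟨c, hc, h⟩ := h
  refine ⟨c, hc, fun m => ?_⟩
  have h1 : ρ δ⁻¹ (ρ (δ * γ * δ⁻¹) (ρ δ m)) = ρ γ m := by
    rw [← ρmul, ← ρmul]
    congr 1
    group
  rw [← h1, h, map_smul, ← ρmul, inv_mul_cancel, ρ1]

/-- **A subgroup of finite index with rigid stars.** -/
theorem exists_rigid (hfg : Group.FG Γ) (ρ : Γ → M →ₗ[ℝ] M) (ρ1 : ∀ m, ρ 1 m = m)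
    (ρmul : ∀ γ δ m, ρ (γ * δ) m = ρ γ (ρ δ m)) (adj : A → A → Prop)
    (hinv : ∀ (γ : Γ) a b, adj a b → adj (γ • a) (γ • b))
    (R₀ : Set A) (hR₀ : R₀.Finite) (hfin : ∀ a, ∃ γ : Γ, γ • a ∈ R₀)
    (hD : ∀ a, {b | b ≠ a ∧ adj a b}.Finite)
    (hst : ∀ a : A, ∃ F : Set Γ, F.Finite ∧ ∀ γ : Γ, γ • a = a → ∃ δ ∈ F, PS ρ (δ⁻¹ * γ)) :
    ∃ L : Subgroup Γ, L.FiniteIndex ∧
      (∀ a b c, (b = a ∨ adj a b) → (c = a ∨ adj a c) → ∀ γ ∈ L, γ • b = c → PS ρ γ) ∧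
      ∃ R₁ : Set A, R₁.Finite ∧ ∀ a, ∃ γ ∈ L, γ • a ∈ R₁ := by
  classical
  choose F hF1 hF2 using hst
  let star : A → Set A := fun a => {b | b = a ∨ adj a b}
  have hstar : ∀ a, (star a).Finite := by
    intro a
    refine (((Set.finite_singleton a).union (hD a))).subset ?_
    rintro b (h | h)
    · exact Or.inl h
    · by_cases hb : b = a
      · exact Or.inl hb
      · exact Or.inr ⟨hb, h⟩
  let g₀ : A → A → Γ := fun b c => if h : ∃ γ : Γ, γ • b = c then h.choose else 1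
  have hg₀ : ∀ b c, (∃ γ : Γ, γ • b = c) → g₀ b c • b = c := by
    intro b c h
    show (if h : ∃ γ : Γ, γ • b = c then h.choose else 1) • b = c
    rw [dif_pos h]
    exact h.choose_spec
  let Φ : Set Γ := ⋃ a ∈ R₀, ⋃ b ∈ star a, ⋃ c ∈ star a, (fun δ => g₀ b c * δ) '' F b
  have hΦ : Φ.Finite := by
    refine hR₀.biUnion fun a _ => (hstar a).biUnion fun b _ => (hstar a).biUnion fun c _ => ?_
    exact (hF1 b).image _
  obtain ⟨L, hL1, hL2, hL3⟩ := exists_sub hfg ρ ρ1 ρmul Φ hΦ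
  refine ⟨L, hL1, ?_, ?_⟩
  · intro a b c hb hc γ hγ hbc
    obtain ⟨κ, hκ⟩ := hfin a
    refine ps_conj ρ ρ1 ρmul (δ := κ) (hL3 _ (hL2.conj_mem γ hγ κ) ?_)
    have hb' : κ • b ∈ star (κ • a) := by
      rcases hb with h | h
      · exact Or.inl (by rw [h])
      · exact Or.inr (hinv κ a b h)
    have hc' : κ • c ∈ star (κ • a) := by
      rcases hc with h | h
      · exact Or.inl (by rw [h])
      · exact Or.inr (hinv κ a c h)
    have h1 : (κ * γ * κ⁻¹) • (κ • b) = κ • c := by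
      rw [mul_smul, mul_smul, inv_smul_smul, hbc]
    have h2 := hg₀ (κ • b) (κ • c) ⟨_, h1⟩
    obtain ⟨δ, hδ, h3⟩ := hF2 (κ • b) ((g₀ (κ • b) (κ • c))⁻¹ * (κ * γ * κ⁻¹)) (by
      rw [mul_smul, h1, inv_smul_eq_iff, h2])
    refine ⟨g₀ (κ • b) (κ • c) * δ, ?_, ?_⟩
    · exact Set.mem_biUnion hκ (Set.mem_biUnion hb' (Set.mem_biUnion hc' ⟨δ, hδ, rfl⟩))
    · rw [mul_inv_rev, mul_assoc]
      exact h3
  · have hq : Finite (Γ ⧸ L) := Subgroup.finite_quotient_of_finiteIndex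
    let R₁ : Set A := ⋃ q : Γ ⧸ L, (fun a => (q.out)⁻¹ • a) '' R₀
    refine ⟨R₁, Set.finite_iUnion fun q => hR₀.image _, fun a => ?_⟩
    obtain ⟨κ, hκ⟩ := hfin a
    let q : Γ ⧸ L := QuotientGroup.mk κ
    obtain ⟨l, hl⟩ := QuotientGroup.mk_out_eq_mul L κ
    -- q.out = κ * l
    refine ⟨l.1⁻¹, L.inv_mem l.2, Set.mem_iUnion.2 ⟨q, κ • a, hκ, ?_⟩⟩
    show (q.out)⁻¹ • κ • a = l.1⁻¹ • a
    have h1 : q.out = κ * l.1 := hl
    rw [h1, mul_inv_rev, mul_smul, inv_smul_smul]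

end

end Pool.Agent.D0H26.RR
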