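import Pool.Agent.D0H26.RR.Car

/-!
# Invariant subquotients (helper26)
-/

set_option autoImplicit false

open Set Filter Topology

namespace Pool.Agent.D0H26.RR

open Pool.Agent.W689.Ch Pool.Agent.TH845.Mk Pool.Agent.Y150.Ch
open Pool.Agent.W689.Mk (lin hol_add hol_sub hol_inv_apply hol_apply_inv lin_inv_apply lin_mul
  lin_smul lin_neg hol_cont)

section
variable {X Γ E : Type} [TopologicalSpace X] [T2Space X] [Group Γ] [MulAction Γ X]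
  [NormedAddCommGroup E] [NormedSpace ℝ E] [FiniteDimensional ℝ E]
  {dev : X → E} {hol : Γ →* (E ≃ᵃ[ℝ] E)}

/-- the subquotient `N₂ / N₁` -/
abbrev SQ (N₁ N₂ : Submodule ℝ E) : Submodule ℝ (E ⧸ N₁) := N₂.map N₁.mkQ

theorem finrank_sq (N₁ N₂ : Submodule ℝ E) (h : N₁ ≤ N₂) :
    Module.finrank ℝ (SQ N₁ N₂) + Module.finrank ℝ N₁ = Module.finrank ℝ N₂ := by
  have h1 := (N₁.mkQ.domRestrict N₂).finrank_range_add_finrank_ker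
  have h2 : LinearMap.range (N₁.mkQ.domRestrict N₂) = N₂.map N₁.mkQ :=
    LinearMap.range_domRestrict _ _
  have h3 : LinearMap.ker (N₁.mkQ.domRestrict N₂) = N₁.comap N₂.subtype := by
    ext v
    rw [LinearMap.mem_ker, Submodule.mem_comap]
    show N₁.mkQ v.1 = 0 ↔ v.1 ∈ N₁
    rw [Submodule.mkQ_apply, Submodule.Quotient.mk_eq_zero]
  have h4 : Module.finrank ℝ (N₁.comap N₂.subtype) = Module.finrank ℝ N₁ :=
    (Submodule.comapSubtypeEquivOfLe h).finrank_eq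
  rw [h2, h3, h4] at h1
  exact h1

omit [FiniteDimensional ℝ E] in
/-- the representation on the subquotient -/
theorem rho_sq (hol : Γ →* (E ≃ᵃ[ℝ] E)) (N₁ N₂ : Submodule ℝ E)
    (hN₁ : ∀ (γ : Γ), ∀ v ∈ N₁, lin hol γ v ∈ N₁) (hN₂ : ∀ (γ : Γ), ∀ v ∈ N₂, lin hol γ v ∈ N₂) :
    ∃ ρ : Γ → (SQ N₁ N₂) →ₗ[ℝ] (SQ N₁ N₂), (∀ m, ρ 1 m = m) ∧
      (∀ γ δ m, ρ (γ * δ) m = ρ γ (ρ δ m)) ∧
      (∀ γ (w : SQ N₁ N₂) (v : E), N₁.mkQ v = w.1 → (ρ γ w).1 = N₁.mkQ (lin hol γ v)) ∧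
      ∀ γ, PS ρ γ ↔ ∃ c : ℝ, 0 < c ∧ ∀ v ∈ N₂, lin hol γ v - c • v ∈ N₁ := by
  obtain ⟨ρ, ρ1, ρmul, ρmk, _⟩ := rho_quot hol N₁ hN₁
  have hinv : ∀ (γ : Γ), ∀ w ∈ SQ N₁ N₂, ρ γ w ∈ SQ N₁ N₂ := by
    rintro γ _ ⟨v, hv, rfl⟩
    rw [ρmk]
    exact ⟨_, hN₂ γ v hv, rfl⟩
  refine ⟨fun γ => (ρ γ).restrict (hinv γ), ?_, ?_, ?_, ?_⟩
  · intro w
    exact Subtype.ext (ρ1 w.1)
  · intro γ δ w
    exact Subtype.ext (ρmul γ δ w.1)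
  · intro γ w v hv
    show ρ γ w.1 = N₁.mkQ (lin hol γ v)
    rw [← hv, ρmk]
  · intro γ
    constructor
    · rintro ⟨c, hc, h⟩
      refine ⟨c, hc, fun v hv => ?_⟩
      have h1 := congrArg Subtype.val (h ⟨N₁.mkQ v, v, hv, rfl⟩)
      have h2 : ρ γ (N₁.mkQ v) = c • N₁.mkQ v := h1
      rw [ρmk] at h2
      rw [← Submodule.Quotient.mk_eq_zero, ← Submodule.mkQ_apply, map_sub, map_smul, h2, sub_self]
    · rintro ⟨c, hc, h⟩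
      refine ⟨c, hc, ?_⟩
      rintro ⟨_, v, hv, rfl⟩
      refine Subtype.ext ?_
      show ρ γ (N₁.mkQ v) = c • N₁.mkQ v
      rw [ρmk, ← map_smul, ← sub_eq_zero, ← map_sub, Submodule.mkQ_apply,
        Submodule.Quotient.mk_eq_zero]
      exact h v hv

/-- **Subquotients.** -/
theorem sq_random (D : AffMfd X Γ E dev hol)
    (hno : ¬ ∃ Z : X → E, Continuous Z ∧ (∀ (γ : Γ) x, Z (γ • x) = lin hol γ (Z x)) ∧
      ∀ x, Z x ≠ 0) {A : Type} [MulAction Γ A] {U : A → Set X} {ℳ : Finset (Finset A)}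
    (N₁ N₂ : Submodule ℝ E) (hU : Cov3 X Γ U ℳ (Module.finrank ℝ (SQ N₁ N₂)))
    (hne : ∀ t ∈ ℳ, t.Nonempty)
    (hN₁ : ∀ (γ : Γ), ∀ v ∈ N₁, lin hol γ v ∈ N₁) (hN₂ : ∀ (γ : Γ), ∀ v ∈ N₂, lin hol γ v ∈ N₂)
    (hreg : ∀ t ∈ ℳ, ∀ a ∈ t, ∀ b ∈ t, ∀ γ : Γ, γ • a = b →
      ∃ c : ℝ, 0 < c ∧ ∀ v ∈ N₂, lin hol γ v - c • v ∈ N₁)
    (hs : Small Γ ℳ (Module.finrank ℝ (SQ N₁ N₂))) : False := by
  obtain ⟨ρ, ρ1, ρmul, ρmk, ρS⟩ := rho_sq hol N₁ N₂ hN₁ hN₂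
  obtain ⟨v, hv1, hv2⟩ := exists_signed2 (M := SQ N₁ N₂) ρ ρ1 ρmul ℳ hne
    (fun t ht a ha b hb γ hγ => (ρS γ).2 (hreg t ht a ha b hb γ hγ)) hs
  choose r hr using fun a => N₁.mkQ_surjective (v a).1
  refine sub_cover3 D hno hU.op hU.inv N₁ hN₁ r ?_ ?_
  · intro γ a
    obtain ⟨c, hc, h⟩ := hv1 γ a
    refine ⟨c, hc, ?_⟩
    have h1 := congrArg Subtype.val h
    rw [ρmk γ (v a) (r a) (hr a)] at h1
    have h2 : N₁.mkQ (lin hol γ (r a)) = c • (v (γ • a)).1 := h1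
    rw [← Submodule.Quotient.mk_eq_zero, ← Submodule.mkQ_apply, map_sub, map_smul, h2,
      hr (γ • a), sub_self]
  · intro x
    obtain ⟨s, ⟨a₀, ha₀⟩, hs1, hs2, hs3⟩ := hU.cov x
    refine ⟨⟨a₀, hs2 a₀ ha₀⟩, ?_⟩
    obtain ⟨f, hf⟩ := good_at ρ v hv1 hv2 s hs3
    obtain ⟨f', hf'⟩ := LinearMap.exists_extend f
    refine ⟨f' ∘ₗ N₁.mkQ, ?_, ?_⟩
    · intro v hv
      show f' (N₁.mkQ v) = 0
      rw [(Submodule.Quotient.mk_eq_zero N₁).2 hv |> fun h => (show N₁.mkQ v = 0 from h), map_zero]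
    · intro a ha
      show 0 < f' (N₁.mkQ (r a))
      rw [hr a]
      have h1 : f' (v a).1 = f (v a) := by
        rw [← hf']
        rfl
      rw [h1]
      exact hf a (hs1 a ha)

end

end Pool.Agent.D0H26.RR
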